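import Pool.Agent.Helper66.T5b.PpLast
import Pool.Agent.Helper63.T5b.NumG
import Pool.Agent.Helper22.NEARb.Stmts

/-!
# T5b, lines Nb9, Nb9D: the instance of the last level, numbers of the windows
-/

set_option autoImplicit false

namespace Pool.Agent.Helper66.T5b

open Finset Pool.Agent.Helper22.SL Pool.Agent.Helper87.SL Pool.Agent.Helper57.T5
open Pool.Agent.Helper57.T5b (BKb winD_two kb2)
open Pool.Agent.Helper30.T5b (RT RT_pos)
open Pool.Agent.Helper84.T5b Pool.Agent.Helper37.T5b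
open Pool.Agent.Helper42.T5.Pr (PrLe)
open Pool.Agent.Helper22.NEARb hiding lam
open Pool.Agent.Helper63.T5b Pool.Agent.Helper44.T5b
open Pool.Agent.Helper63.T5 (lam lam_gt lam_lt)
open Pool.Agent.Helper5.ET (bb)

variable {m k t l' l : ℕ}

/-- **the instance** -/
theorem lastW (hm : 0 < m) (h : PDb m k t l' l) {c : ℝ} (hL : LateN m k c l')
    (hD : 20 * (l - l') < 7 * wW m k l (sb m k t l' l)) {cx : Cx} (hc : cx ∈ Jx m k t l' l) :
    ∃ W0, LastW (Mk m k) (PN m k t l' l) (lg m k l - lg m k l')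
      ((wW m k l (sb m k t l' l) : ℝ) * lam) W0
      (lg m k (ef m k l (sb m k t l' l)) - lg m k l)
      (lg m k (ef m k l' (sb m k t l' l)) - lg m k l') (KB k)
      (nTx m k t l' l cx) (XTx m k t l' l cx) (IrB m k t l' l) := by
  have hX := numX hm h hL
  have hh1 : 1 ≤ (PN m k t l' l).h := hb_pos m k t l' l
  obtain ⟨t1, ht1⟩ : ∃ t1, (PN m k t l' l).h = t1 + 1 := ⟨(PN m k t l' l).h - 1, by omega⟩
  have hsb : t + (PN m k t l' l).h = sb m k t l' l := rfl
  have hlam := lam_gt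
  have hsL : bL m k l ≤ sL m k l - sb m k t l' l := by
    have h1 := hb_le (m := m) (k := k) (l' := l') (l := l) h.tr
    exact bL_le_idx hm h1
  refine ⟨wB m k t l t1, ⟨PN_ok hm h hL, ?_, ?_, ?_, hh1, tgB hm h hL hc, ?_, ?_, ?_⟩⟩
  · have := hX.toNum.toL ht1
    exact this
  · have := hX.toNum.jump _ hh1 le_rfl
    exact this
  · have h1 := hL.lg_le (x := l') (y := l) (W := wW m k l (sb m k t l' l)) le_rfl h.le
      (SS_mono m (h.ble.trans hsL))
    have h2 : 20 * ((l - l' : ℕ) : ℝ) ≤ 7 * (wW m k l (sb m k t l' l) : ℝ) := by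
      exact_mod_cast hD.le
    have h3 : 10001 / 10000 * ((l - l' : ℕ) : ℝ) + (wW m k l (sb m k t l' l) : ℝ) / 10000 ≤
        0.351 * (wW m k l (sb m k t l' l) : ℝ) := by
      have : (0 : ℝ) ≤ (wW m k l (sb m k t l' l) : ℝ) := Nat.cast_nonneg _
      linarith
    have h4 := mul_le_mul_of_nonneg_right h3 (show 0 ≤ lam by linarith)
    linarith
  · unfold IrB
    exact Finset.prod_pos fun i _ => Nat.pow_pos (pJ_prime k (sL m k l) i).pos
  · have h1 := IrB_le hm h hL (le_refl (PN m k t l' l).h)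
    rw [hsb] at h1
    refine h1.trans (max_le ?_ ?_)
    · have := Real.exp_pos ((lg m k l - lg m k l' -
        (lg m k (ef m k l' (sb m k t l' l)) - lg m k l')) / 2)
      linarith
    · linarith
  · have h1 : nTx m k t l' l cx ≤ IJ m k l l' := Pool.Agent.Helper39.SL.nT_le _ _ _ _ _ _
    have h2 := IJ_le' hm h hL.bb
    have h3 : ((nTx m k t l' l cx : ℕ) : ℝ) ≤ ((IJ m k l l' : ℕ) : ℝ) := by exact_mod_cast h1
    exact h3.trans h2

/-- the instance with the same numbers for all contexts -/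
theorem lastW_all (hm : 0 < m) (h : PDb m k t l' l) {c : ℝ} (hL : LateN m k c l')
    (hD : 20 * (l - l') < 7 * wW m k l (sb m k t l' l)) :
    ∃ W0, ∀ cx ∈ Jx m k t l' l, LastW (Mk m k) (PN m k t l' l) (lg m k l - lg m k l')
      ((wW m k l (sb m k t l' l) : ℝ) * lam) W0
      (lg m k (ef m k l (sb m k t l' l)) - lg m k l)
      (lg m k (ef m k l' (sb m k t l' l)) - lg m k l') (KB k)
      (nTx m k t l' l cx) (XTx m k t l' l cx) (IrB m k t l' l) := by
  rcases (Jx m k t l' l).eq_empty_or_nonempty with h0 | ⟨c0, hc0⟩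
  · refine ⟨0, fun cx hcx => ?_⟩
    rw [h0] at hcx
    simp at hcx
  · obtain ⟨W0, h1⟩ := lastW hm h hL hD hc0
    refine ⟨W0, fun cx hcx => ?_⟩
    obtain ⟨W0', h2⟩ := lastW hm h hL hD hcx
    exact ⟨h1.ok, h1.num, h1.jump, h1.dw, h1.h1, h2.tg, h1.I1, h1.I2, h2.IJ⟩

/-! ## sizes -/

theorem SS_add_le (m b : ℕ) : ∀ h, SS m (b + h) ≤ SS m b * (2 ^ (aa m (b + h - 1) / m + 1)) ^ h
  | 0 => by simp
  | h + 1 => by
    have h1 := SS_add_le m b h
    have e1 : b + (h + 1) = b + h + 1 := rfl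
    rw [e1, SS_succ, Nat.add_sub_cancel]
    have h2 : (2 ^ (aa m (b + h - 1) / m + 1)) ^ h ≤ (2 ^ (aa m (b + h) / m + 1)) ^ h :=
      Nat.pow_le_pow_left (Nat.pow_le_pow_right (by norm_num)
        (Nat.add_le_add_right (aa_div_mono m (by omega)) 1)) h
    calc SS m (b + h) * 2 ^ (aa m (b + h) / m + 1)
        ≤ SS m b * (2 ^ (aa m (b + h) / m + 1)) ^ h * 2 ^ (aa m (b + h) / m + 1) :=
          Nat.mul_le_mul_right _ (h1.trans (Nat.mul_le_mul_left _ h2))
      _ = SS m b * ((2 ^ (aa m (b + h) / m + 1)) ^ h * 2 ^ (aa m (b + h) / m + 1)) :=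
          mul_assoc _ _ _
      _ = _ := by rw [← pow_succ]

/-- the largest quotient -/
def xq (m b : ℕ) : ℕ := 2 ^ (aa m b / m + 1)

theorem one_le_xq (m b : ℕ) : 1 ≤ xq m b := Nat.one_le_two_pow

theorem xq_mono (m : ℕ) {b b' : ℕ} (h : b ≤ b') : xq m b ≤ xq m b' :=
  Nat.pow_le_pow_right (by norm_num) (Nat.add_le_add_right (aa_div_mono m h) 1)

theorem xq_le (hm : 2 ≤ m) (b : ℕ) : xq m (b + 2) ≤ SS m b ^ 3 := by
  have h1 := aa_div_succ_le (m := m) (by omega) (b + 1)
  have h2 := aa_div_succ_le (m := m) (by omega) b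
  have h3 : 2 * (aa m b / m) ≤ aa m b :=
    (Nat.mul_le_mul_right _ hm).trans (Nat.mul_div_le _ _)
  have h4 := aa_ge' (m := m) (by omega) b
  unfold xq SS
  rw [← pow_mul]
  apply Nat.pow_le_pow_right (by norm_num)
  have e : b + 2 = b + 1 + 1 := rfl
  rw [e]
  omega

/-- the front below which the pair lives against the last windows -/
theorem wW_le (hm : 0 < m) (h : PDb m k t l' l) :
    wW m k l t ≤ wW m k l (sb m k t l' l) *
      (xq m (sL m k l - sb m k t l' l + hb m k t l' l - 1)) ^ 3 := by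
  have h1 := hb_le_three hm h
  have h2 := hb_le (m := m) (k := k) (l' := l') (l := l) h.tr
  have h3 := Pool.Agent.Helper27.T5b.rL_bounds hm k l
  have h5 : sb m k t l' l = t + hb m k t l' l := rfl
  have h4 : sL m k l - sb m k t l' l + hb m k t l' l = sL m k l - t := by
    have : rL m k l ≤ sL m k l := Nat.sub_le _ _
    omega
  have h6 := SS_add_le m (sL m k l - sb m k t l' l) (hb m k t l' l)
  have e1 : wW m k l t = SS m (sL m k l - sb m k t l' l + hb m k t l' l) := by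
    rw [h4]
    rfl
  rw [e1]
  refine h6.trans (Nat.mul_le_mul_left _ ?_)
  exact Nat.pow_le_pow_right (one_le_xq m _) h1

theorem xq_le_last (hm : 2 ≤ m) (h : PDb m k t l' l) :
    xq m (sL m k l - sb m k t l' l + hb m k t l' l - 1) ≤ wW m k l (sb m k t l' l) ^ 3 := by
  have h1 := hb_le_three (m := m) (by omega) h
  exact (xq_mono m (by omega)).trans (xq_le hm _)

/-- the quotient against the distance -/
theorem xq_dist (h : PDb m k t l' l) {c0 : ℕ} (hc : CaseBt c0 m k t l' l) :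
    (xq m (sL m k l - sb m k t l' l + hb m k t l' l - 1) : ℝ) ^ 9 * 512 ^ c0 ≤
      512 * Real.exp ((lg m k l - lg m k l') / 2) := by
  obtain ⟨h1, h2, h3⟩ := hc
  have h4 := thousand_pow_le m k h.le
  have h7 := hb_le (m := m) (k := k) (l' := l') (l := l) h.tr
  have h8 : rL m k l ≤ sL m k l := Nat.sub_le _ _
  have h5 : xq m (sL m k l - sb m k t l' l + hb m k t l' l - 1) ≤
      2 ^ (aa m (sL m k l) / m + 1) := by
    refine Nat.pow_le_pow_right (by norm_num) (Nat.add_le_add_right (aa_div_mono m ?_) 1)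
    have h5 : sb m k t l' l = t + hb m k t l' l := rfl
    omega
  have h6 : (xq m (sL m k l - sb m k t l' l + hb m k t l' l - 1) : ℝ) ≤
      2 ^ (aa m (sL m k l) / m + 1) := by exact_mod_cast h5
  calc (xq m (sL m k l - sb m k t l' l + hb m k t l' l - 1) : ℝ) ^ 9 * 512 ^ c0
      ≤ (2 ^ (aa m (sL m k l) / m + 1)) ^ 9 * 512 ^ c0 :=
        mul_le_mul_of_nonneg_right (pow_le_pow_left₀ (Nat.cast_nonneg _) h6 9) (by positivity)
    _ = 512 * 512 ^ (aa m (sL m k l) / m + c0) := by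
        rw [← pow_mul, mul_comm _ 9, pow_mul, show (2 : ℝ) ^ 9 = 512 by norm_num, pow_succ,
          pow_add]
        ring
    _ ≤ 512 * 512 ^ (l - l') := by
        refine mul_le_mul_of_nonneg_left (pow_le_pow_right₀ (by norm_num) h3) (by norm_num)
    _ ≤ 512 * 1000 ^ (l - l') := by
        refine mul_le_mul_of_nonneg_left (pow_le_pow_left₀ (by norm_num) (by norm_num) _)
          (by norm_num)
    _ ≤ _ := mul_le_mul_of_nonneg_left h4 (by norm_num)

/-- a polynomial against an exponential -/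
theorem exists_late_W (n : ℕ) (C : ℝ) : ∃ W0 : ℕ, ∀ W : ℝ, (W0 : ℝ) ≤ W →
    C * W ^ n * Real.exp (-(W / 40)) ≤ 1 := by
  have h1 : Filter.Tendsto (fun x : ℝ => x ^ n * Real.exp (-x)) Filter.atTop (nhds 0) :=
    Real.tendsto_pow_mul_exp_neg_atTop_nhds_zero n
  have h2 : Filter.Tendsto (fun W : ℝ => W / 40) Filter.atTop Filter.atTop :=
    Filter.tendsto_id.atTop_div_const (by norm_num)
  have h3 := (h1.comp h2).const_mul (C * 40 ^ n)
  rw [mul_zero] at h3
  obtain ⟨W0, hW0⟩ := Filter.eventually_atTop.1 (h3.eventually_le_const (show (0 : ℝ) < 1 by norm_num))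
  obtain ⟨N, hN⟩ := exists_nat_ge W0
  refine ⟨N, fun W hW => ?_⟩
  have h4 := hW0 W (hN.trans hW)
  simp only [Function.comp_apply] at h4
  refine le_trans (le_of_eq ?_) h4
  rw [div_pow]
  field_simp

/-- the random windows are large -/
theorem exists_RT_ge (hm : 0 < m) (k : ℕ) : ∃ l0 : ℕ, ∀ l, l0 ≤ l →
    Real.exp (0.999 * ((SS m (bL m k l) : ℝ) * lam)) ≤ (RT m k (bL m k l) : ℝ) := by
  obtain ⟨t0, h0⟩ := Pool.Agent.Helper30.T5b.exists_pow_le_RT hm k
  obtain ⟨l0, h1⟩ := Pool.Agent.Helper27.T5b.exists_bL hm k t0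
  refine ⟨l0, fun l hl => ?_⟩
  obtain ⟨-, h2⟩ := h1 l hl
  set S := SS m (bL m k l) with hS
  have hS1 := SS_ge hm (bL m k l)
  have h7 : (2 : ℕ) ^ 20 ≤ 2 ^ 250 := Nat.pow_le_pow_right (by norm_num) (by norm_num)
  set n := 10000 * S / 10001 with hn
  have h3 : 10001 * n ≤ 10000 * S := Nat.mul_div_le _ _
  have h4 := h0 _ h2 n h3
  have h5 : 0.999 * (S : ℝ) ≤ n := by
    have h8 : 10000 * S < 10001 * n + 10001 := by
      have := Nat.div_add_mod (10000 * S) 10001
      have := Nat.mod_lt (10000 * S) (show 0 < 10001 by norm_num)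
      omega
    have h9 : (10000 : ℝ) * S < 10001 * n + 10001 := by exact_mod_cast h8
    have h10 : (1048576 : ℝ) ≤ S := by
      have : 1048576 ≤ S := by omega
      exact_mod_cast this
    linarith
  have hlam := lam_gt
  calc Real.exp (0.999 * ((S : ℝ) * lam)) ≤ Real.exp ((n : ℝ) * lam) := by
        apply Real.exp_le_exp.2
        nlinarith
    _ = (10 ^ 6) ^ n := exp_nat_lam n
    _ ≤ _ := by exact_mod_cast h4

theorem RT_le_exp (hm : 0 < m) (k b : ℕ) : (RT m k b : ℝ) ≤ Real.exp ((SS m b : ℝ) * lam) := by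
  rw [exp_nat_lam]
  exact_mod_cast Pool.Agent.Helper30.T5b.RT_le hm k b

end Pool.Agent.Helper66.T5b
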