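import Pool.Agent.Helper66.T5b.PpSame
import Pool.Agent.Helper66.T5b.PpInst
import Pool.Agent.Helper50.T5b.BadCtx
import Pool.Agent.Helper57.T5b.BotCore

/-!
# T5b, line Nb9: the random windows, small distance, no event
-/

set_option autoImplicit false

namespace Pool.Agent.Helper66.T5b

open Finset Pool.Agent.Helper22.SL Pool.Agent.Helper87.SL Pool.Agent.Helper57.T5
open Pool.Agent.Helper57.T5b (BKb BKb_of Zw_last)
open Pool.Agent.Helper30.T5b (RT RT_pos)
open Pool.Agent.Helper84.T5b Pool.Agent.Helper37.T5b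
open Pool.Agent.Helper42.T5.Pr (PrLe PrLe_mono PrLe_exists)
open Pool.Agent.Helper22.NEARb hiding lam
open Pool.Agent.Helper63.T5b Pool.Agent.Helper44.T5b
open Pool.Agent.Helper63.T5 (lam lam_gt lam_lt)
open Pool.Agent.Helper5.ET (bb)

variable {m k t l' l : ℕ}

/-- the last windows are the random windows -/
theorem Bw_last (m k l : ℕ) (w : Key → ℕ) : Bw m k l (rL m k l) w = Vw m k l w := by
  classical
  unfold Bw
  rw [Zw_last, image_image]
  have h0 : 0 < Un m k l := Pool.Agent.Helper27.T5b.Un_pos m k l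
  refine (image_congr (g := fun v => v) ?_).trans image_id'
  intro v _
  show Un m k l * v / Un m k l = v
  rw [Nat.mul_div_cancel_left _ h0]

/-- the late conditions on the sizes -/
theorem exists_num (K0 : ℝ) (hK0 : 1 ≤ K0) : ∃ W0 c0 : ℕ, ∀ (W1 x d : ℝ), (W0 : ℝ) ≤ W1 →
    10 ^ 7 ≤ W1 → 1 ≤ x → x ≤ W1 ^ 3 → x ^ 9 * 512 ^ c0 ≤ 512 * Real.exp (d / 2) →
    ∀ T : ℝ, 0 ≤ T → T ≤ 92 * (x ^ 3 * W1) →
    1350 * (200 * x ^ 3) * K0 * 300 * Real.exp (-(0.00535 * (W1 * lam))) ≤ 1 ∧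
    1350 * (200 * x ^ 3) * K0 * 300 * Real.exp (-(d / 2)) ≤ 1 ∧
    240 * (200 * x ^ 3) * K0 * (T + 1) * Real.exp (-(W1 * lam / 512)) ≤ 1 := by
  obtain ⟨W0, hW0⟩ := exists_late_W 19 (1350 * 200 * K0 * 300)
  obtain ⟨c0, hc0⟩ := pow_unbounded_of_one_lt (1350 * 200 * K0 * 300 * 512)
    (show (1 : ℝ) < 512 by norm_num)
  refine ⟨W0, c0, fun W1 x d h1 h2 h3 h4 h5 T hT hT2 => ?_⟩
  have hlam := lam_gt
  have hlate := hW0 W1 h1
  have hW1 : (1 : ℝ) ≤ W1 := by linarith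
  have hx3 : x ^ 3 ≤ W1 ^ 9 := by
    calc x ^ 3 ≤ (W1 ^ 3) ^ 3 := pow_le_pow_left₀ (by linarith) h4 3
      _ = W1 ^ 9 := by ring
  have hlW : 13 * W1 ≤ W1 * lam := by
    rw [mul_comm]
    exact mul_le_mul_of_nonneg_left (by linarith only [hlam]) (by linarith only [hW1])
  refine ⟨?_, ?_, ?_⟩
  · refine le_trans ?_ hlate
    have e1 : x ^ 3 ≤ W1 ^ 19 := hx3.trans (pow_le_pow_right₀ hW1 (by norm_num))
    have e2 : Real.exp (-(0.00535 * (W1 * lam))) ≤ Real.exp (-(W1 / 40)) :=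
      Real.exp_le_exp.2 (by linarith)
    calc 1350 * (200 * x ^ 3) * K0 * 300 * Real.exp (-(0.00535 * (W1 * lam)))
        = 1350 * 200 * K0 * 300 * x ^ 3 * Real.exp (-(0.00535 * (W1 * lam))) := by ring
      _ ≤ _ := by gcongr
  · rw [Real.exp_neg, ← div_eq_mul_inv, div_le_one (Real.exp_pos _)]
    have e1 : x ^ 3 ≤ x ^ 9 := pow_le_pow_right₀ h3 (by norm_num)
    have e2 : 512 * (1350 * (200 * x ^ 3) * K0 * 300) ≤ 512 * Real.exp (d / 2) := by
      refine le_trans ?_ h5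
      calc 512 * (1350 * (200 * x ^ 3) * K0 * 300)
          = (1350 * 200 * K0 * 300 * 512) * x ^ 3 := by ring
        _ ≤ 512 ^ c0 * x ^ 9 := mul_le_mul hc0.le e1 (by positivity) (by positivity)
        _ = _ := mul_comm _ _
    linarith
  · refine le_trans ?_ hlate
    have e2 : Real.exp (-(W1 * lam / 512)) ≤ Real.exp (-(W1 / 40)) :=
      Real.exp_le_exp.2 (by linarith)
    have e3 : 1 ≤ x ^ 3 * W1 := by
      have : (1 : ℝ) ≤ x ^ 3 := one_le_pow₀ h3
      exact one_le_mul_of_one_le_of_one_le this hW1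
    have e4 : x ^ 3 * (T + 1) ≤ 93 * W1 ^ 19 := by
      calc x ^ 3 * (T + 1) ≤ x ^ 3 * (93 * (x ^ 3 * W1)) := by
            refine mul_le_mul_of_nonneg_left (by linarith) (by positivity)
        _ ≤ W1 ^ 9 * (93 * (W1 ^ 9 * W1)) := by gcongr
        _ = 93 * W1 ^ 19 := by ring
    calc 240 * (200 * x ^ 3) * K0 * (T + 1) * Real.exp (-(W1 * lam / 512))
        = (240 * 200 * K0) * (x ^ 3 * (T + 1)) * Real.exp (-(W1 * lam / 512)) := by ring
      _ ≤ (240 * 200 * K0) * (93 * W1 ^ 19) * Real.exp (-(W1 / 40)) := by gcongr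
      _ = (240 * 200 * K0 * 93) * W1 ^ 19 * Real.exp (-(W1 / 40)) := by ring
      _ ≤ _ := by
          have : 240 * 200 * K0 * 93 ≤ 1350 * 200 * K0 * 300 := by linarith only [hK0]
          gcongr

/-- **Nb9** -/
theorem pp_bot (m k : ℕ) (hm : 2 ≤ m) : PpBotS SameB m k := by
  classical
  have hm0 : 0 < m := by omega
  obtain ⟨W0, c0, hnum⟩ := exists_num (KB k) (one_le_KB k)
  obtain ⟨l1, h1⟩ := exists_lateN hm k (max (W0 : ℝ) (10 ^ 7))
  obtain ⟨l2, h2⟩ := exists_RT_ge hm0 k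
  obtain ⟨l3, h3⟩ := Pool.Agent.Helper50.T5b.card_Jx m k hm
  refine ⟨max (max l1 l2) l3, c0, fun t l' l hl' h hB hcase K hK hK' => ?_⟩
  simp only [max_le_iff] at hl'
  obtain ⟨⟨g1, g2⟩, g3⟩ := hl'
  have hL := h1 l' g1
  have hRT := h2 l (g2.trans h.le)
  have hJ := h3 t l' l g3 h
  have hbb' := hL.bb
  have hbb : bb 0 ≤ mL m k l := hbb'.trans (Pool.Agent.Helper27.T5b.l1_mono _ h.le)
  have hsb := hcase.1
  have hrl := Pool.Agent.Helper27.T5b.rL_bounds hm0 k l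
  have hrle : rL m k l ≤ sL m k l := Nat.sub_le _ _
  have hbs : sL m k l - sb m k t l' l = bL m k l := by
    rw [hsb]
    unfold rL
    have := bL_le_idx (m := m) (k := k) (l := l) hm0 (Nat.zero_le _)
    omega
  have hW1 : wW m k l (sb m k t l' l) = SS m (bL m k l) := by
    unfold wW
    rw [hbs]
  have hbeq : bL m k l' = bL m k l := hB
  have hrr : rL m k l' = rL m k l := by
    unfold rL
    rw [h.sL_eq, hbeq]
  have hD : 20 * (l - l') < 7 * wW m k l (sb m k t l' l) := by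
    rw [hW1]
    exact hcase.2.1
  have hc := hL.c
  rw [hbeq] at hc
  have hcW : (W0 : ℝ) ≤ (SS m (bL m k l) : ℝ) := (le_max_left _ _).trans hc
  have hc7 : (10 : ℝ) ^ 7 ≤ (SS m (bL m k l) : ℝ) := (le_max_right _ _).trans hc
  -- the quotient
  obtain ⟨x, hx⟩ : ∃ x, xq m (sL m k l - sb m k t l' l + hb m k t l' l - 1) = x := ⟨_, rfl⟩
  have hx1 : 1 ≤ x := by rw [← hx]; exact one_le_xq _ _
  have hx3 := xq_le_last hm h
  have hxd := xq_dist h hcase
  have hwt := wW_le hm0 h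
  rw [hx] at hx3 hxd hwt
  rw [hW1] at hx3 hwt
  have hx3' : (x : ℝ) ≤ (SS m (bL m k l) : ℝ) ^ 3 := by exact_mod_cast hx3
  have hx1' : (1 : ℝ) ≤ x := by exact_mod_cast hx1
  have hwt' : (wW m k l t : ℝ) ≤ x ^ 3 * (SS m (bL m k l) : ℝ) := by
    rw [mul_comm]
    exact_mod_cast hwt
  obtain ⟨W1, hW1def⟩ : ∃ W1 : ℝ, (SS m (bL m k l) : ℝ) = W1 := ⟨_, rfl⟩
  rw [hW1def] at hcW hc7 hx3' hwt' hRT
  obtain ⟨wt, hwtdef⟩ : ∃ wt : ℝ, (wW m k l t : ℝ) = wt := ⟨_, rfl⟩
  rw [hwtdef] at hwt' hJ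
  have hwt0 : W1 ≤ wt := by
    rw [← hW1def, ← hwtdef, ← hW1]
    exact_mod_cast wW_anti m k l (show t ≤ sb m k t l' l from Nat.le_add_right _ _)
  obtain ⟨n1, n2, n3⟩ := hnum W1 x (lg m k l - lg m k l') hcW hc7 hx1' hx3' hxd (92 * wt)
    (by linarith) (by linarith)
  have hx3'' : (1 : ℝ) ≤ (x : ℝ) ^ 3 := one_le_pow₀ hx1'
  -- one context
  have hone : ∀ c ∈ Jx m k t l' l, PrLe (Mk m k) K
      (fun w => Real.exp (-1) < PPx m k t l' l w c) (3 * Real.exp (-(92 * wt))) := by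
    intro c hcJ
    obtain ⟨W0', hLW⟩ := lastW hm0 h hL hD hcJ
    rw [hW1, hW1def] at hLW
    have hMq : (PN m k t l' l).M = (PN m k t l' l).M' * (Jn m k (sL m k l) l / Jn m k (sL m k l) l') :=
      (Nat.mul_div_cancel' (Pool.Agent.Helper44.T5b.Jn_dvd m k (sL m k l) h.le)).symm
    have key := same_one (ne_of_lt h.lt) hbeq hLW hMq (BKb_of hm0 hbb hK) (BKb_of hm0 hbb' hK')
      hc7 (by rw [← hW1def]; exact RT_le_exp hm0 k _) hRT (t0 := 200 * x ^ 3) (T := 92 * wt)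
      (by linarith) (Nat.mul_pos (by norm_num) (Nat.pow_pos hx1)) (by
        push_cast
        have a1 : W1 ≤ (x : ℝ) ^ 3 * W1 := le_mul_of_one_le_left (by linarith only [hc7]) hx3''
        linarith only [a1, hwt', hc7])
      (by push_cast; exact n1) (by push_cast; exact n2) (by push_cast; exact n3)
    have hgoal : PrLe (Mk m k) K
        (fun w => Real.exp (-1) < PPx m k t l' l w c) (3 * Real.exp (-(92 * wt))) := by
     refine PrLe_mono ?_ le_rfl key
     intro r _ hr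
     have e1 : PPx m k t l' l (Pool.Agent.Helper42.T5.Pr.ext K r) c =
         ((PP (PN m k t l' l) (nTx m k t l' l c) (XTx m k t l' l c)
           (Vw m k l (Pool.Agent.Helper42.T5.Pr.ext K r))
           (Vw m k l' (Pool.Agent.Helper42.T5.Pr.ext K r)) : ℕ) : ℝ) *
           (PN m k t l' l).A (PN m k t l' l).h * (PN m k t l' l).pc (PN m k t l' l).h := by
       unfold PPx
       rw [hsb, Bw_last]
       rw [← hrr, Bw_last]
     rw [e1] at hr
     exact hr
    exact hgoal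
  have hall := PrLe_exists (K := K) (M := Mk m k) (Jx m k t l' l)
    (B := fun c w => Real.exp (-1) < PPx m k t l' l w c)
    (ε := fun _ => 3 * Real.exp (-(92 * wt))) hone
  have hfin : PrLe (Mk m k) K (fun w => ∃ c ∈ Jx m k t l' l,
      Real.exp (-1) < PPx m k t l' l w c) (Real.exp (-(SS m (bL m k l') : ℝ))) := by
    refine PrLe_mono ?_ ?_ hall
    · intro r _ h
      exact h
    · rw [Finset.sum_const, nsmul_eq_mul, hbeq, hW1def]
      have e5 : (3 : ℝ) ≤ Real.exp 2 := by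
        have := Real.add_one_le_exp (2 : ℝ)
        linarith
      calc ((Jx m k t l' l).card : ℝ) * (3 * Real.exp (-(92 * wt)))
          ≤ Real.exp (90 * wt) * (Real.exp 2 * Real.exp (-(92 * wt))) := by gcongr
        _ = Real.exp (90 * wt + (2 + -(92 * wt))) := by rw [Real.exp_add, Real.exp_add]
        _ ≤ Real.exp (-W1) := by
            apply Real.exp_le_exp.2
            linarith
  exact hfin

end Pool.Agent.Helper66.T5b
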