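import Pool.Agent.Helper66.T5b.PpDrop
import Pool.Agent.Helper66.T5b.PpBot
import Pool.Agent.Helper83.T5b.DropInst
import Pool.Agent.Helper83.T5b.ZbadD

/-!
# T5b, line Nb9D: the random windows, small distance, across a DROP
-/

set_option autoImplicit false

namespace Pool.Agent.Helper66.T5b

open Finset Pool.Agent.Helper22.SL Pool.Agent.Helper87.SL Pool.Agent.Helper57.T5
open Pool.Agent.Helper57.T5b (BKb BKb_of AQ AQ_ge exists_DJ_le exists_AQ_le)
open Pool.Agent.Helper30.T5b (RT RT_pos)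
open Pool.Agent.Helper84.T5b Pool.Agent.Helper37.T5b
open Pool.Agent.Helper48.T5b (DropP mS fR)
open Pool.Agent.Helper83.T5b (qN qN_pos dropP_near exists_dropU' exists_fR_sizes rhoV rhoY cY)
open Pool.Agent.Helper66.T5 (DropU)
open Pool.Agent.Helper42.T5.Pr (PrLe PrLe_mono PrLe_exists)
open Pool.Agent.Helper22.NEARb hiding lam
open Pool.Agent.Helper63.T5b Pool.Agent.Helper44.T5b
open Pool.Agent.Helper63.T5 (lam lam_gt lam_lt)
open Pool.Agent.Helper5.ET (bb)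

variable {m k : ℕ}

/-- the keys of a state carry its index -/
theorem V_notMem_keysOf {l l' L b : ℕ} (h : l' ≠ l) : Key.V l L b ∉ keysOf m k l' := by
  unfold keysOf
  rw [mem_union, mem_union, mem_image, mem_image, mem_image]
  rintro ((⟨q, _, hq⟩ | ⟨q, _, hq⟩) | ⟨q, _, hq⟩)
  · cases hq
  · cases hq
  · rw [Key.V.injEq] at hq
    exact h hq.1

/-- linear growth of the exponents -/
theorem aa_add_ge (hm : 0 < m) (t : ℕ) : ∀ n, (m + n) * aa m t ≤ m * aa m (t + n)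
  | 0 => by simp
  | n + 1 => by
    have h1 := aa_add_ge hm t n
    have h2 : aa m (t + (n + 1)) = aa m (t + n) + aa m (t + n) / m + 1 := rfl
    have h3 : aa m (t + n) ≤ m * (aa m (t + n) / m + 1) := by
      have := Nat.div_add_mod (aa m (t + n)) m
      have := Nat.mod_lt (aa m (t + n)) hm
      rw [mul_add, mul_one]
      omega
    have h4 : aa m t ≤ aa m (t + n) := (aa_strictMono m).monotone (Nat.le_add_right _ _)
    calc (m + (n + 1)) * aa m t = (m + n) * aa m t + aa m t := by ring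
      _ ≤ m * aa m (t + n) + m * (aa m (t + n) / m + 1) :=
          Nat.add_le_add h1 (h4.trans h3)
      _ = m * aa m (t + (n + 1)) := by rw [h2]; ring

/-- the distance beats the size of the windows -/
theorem aa_sq (hm : 0 < m) (b : ℕ) : aa m b ≤ aa m (b + m ^ 2) / m := by
  rw [Nat.le_div_iff_mul_le hm, mul_comm]
  have h1 := aa_add_ge hm b (m ^ 2)
  have h2 : m * (m * aa m b) ≤ m * aa m (b + m ^ 2) := by
    refine le_trans ?_ h1
    calc m * (m * aa m b) = m ^ 2 * aa m b := by ring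
      _ ≤ _ := Nat.mul_le_mul_right _ (by omega)
  exact Nat.le_of_mul_le_mul_left h2 hm

/-- the lower windows -/
theorem Bw_drop (hm : 0 < m) {s l l' : ℕ} (h : DropP m k s l' l) (w : Key → ℕ) :
    Bw m k l' k w = DropP.UD m k l' w := by
  classical
  have hss : sL m k l' = sL m k l := h.s'.trans h.s1.symm
  unfold Bw
  rw [Pool.Agent.Helper83.T5b.Zw_lower_drop hm h, image_image, hss]
  have h0 : 0 < Jn m k (sL m k l) l' * LL (QQ m k (sL m k l)) k :=
    Nat.mul_pos (Pool.Agent.Helper27.T5b.Jn_pos _ _ _ _)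
      (Pool.Agent.Helper27.T5b.LLQ_pos _ _ _ _)
  refine (image_congr (g := fun v => v) ?_).trans image_id'
  intro v _
  simp only [Function.comp_apply]
  rw [Nat.mul_div_cancel_left _ h0]

/-- the late conditions on the sizes, across a DROP -/
theorem exists_numD (K0 C : ℝ) (hK0 : 1 ≤ K0) (hC : 1 ≤ C) : ∃ W0 c0 : ℕ,
    ∀ (W1 x d : ℝ), (W0 : ℝ) ≤ W1 → 10 ^ 7 ≤ W1 → 1 ≤ x → x ≤ W1 ^ 3 →
    W1 ^ 9 * 512 ^ c0 ≤ Real.exp (d / 2) → ∀ T : ℝ, 0 ≤ T → T ≤ 92 * (x ^ 3 * W1) →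
    ∀ r ρ : ℝ, 0 ≤ r → 0 ≤ ρ → ρ ≤ C ^ 2 * W1 ^ 2 → r ≤ 9 * ρ →
    1350 * r * K0 * (544 * ρ) * Real.exp (-(0.00535 * (W1 * lam))) ≤ 1 ∧
    1350 * r * K0 * (544 * ρ) * Real.exp (-(d / 2)) ≤ 1 ∧
    240 * r * K0 * (T + 1) * Real.exp (-(W1 * lam / 512)) ≤ 1 := by
  obtain ⟨W0, hW0⟩ := exists_late_W 12 (1350 * 9 * 544 * K0 * C ^ 4)
  obtain ⟨c0, hc0⟩ := pow_unbounded_of_one_lt (1350 * 9 * 544 * K0 * C ^ 4)
    (show (1 : ℝ) < 512 by norm_num)
  refine ⟨W0, c0, fun W1 x d h1 h2 h3 h4 h5 T hT hT2 r ρ hr0 hρ0 hρ hr => ?_⟩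
  have hlam := lam_gt
  have hlate := hW0 W1 h1
  have hW1 : (1 : ℝ) ≤ W1 := by linarith
  have hlW : 13 * W1 ≤ W1 * lam := by nlinarith
  have hrρ : 1350 * r * K0 * (544 * ρ) ≤ 1350 * 9 * 544 * K0 * C ^ 4 * W1 ^ 4 := by
    calc 1350 * r * K0 * (544 * ρ) ≤ 1350 * (9 * ρ) * K0 * (544 * ρ) := by gcongr
      _ = 1350 * 9 * 544 * K0 * (ρ * ρ) := by ring
      _ ≤ 1350 * 9 * 544 * K0 * ((C ^ 2 * W1 ^ 2) * (C ^ 2 * W1 ^ 2)) := by gcongr
      _ = _ := by ring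
  refine ⟨?_, ?_, ?_⟩
  · refine le_trans ?_ hlate
    have e1 : W1 ^ 4 ≤ W1 ^ 12 := pow_le_pow_right₀ hW1 (by norm_num)
    have e2 : Real.exp (-(0.00535 * (W1 * lam))) ≤ Real.exp (-(W1 / 40)) :=
      Real.exp_le_exp.2 (by linarith)
    refine mul_le_mul (hrρ.trans ?_) e2 (Real.exp_pos _).le (by positivity)
    gcongr
  · rw [Real.exp_neg, ← div_eq_mul_inv, div_le_one (Real.exp_pos _)]
    refine hrρ.trans (le_trans ?_ h5)
    have e1 : W1 ^ 4 ≤ W1 ^ 9 := pow_le_pow_right₀ hW1 (by norm_num)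
    calc 1350 * 9 * 544 * K0 * C ^ 4 * W1 ^ 4 ≤ 512 ^ c0 * W1 ^ 9 :=
          mul_le_mul hc0.le e1 (by positivity) (by positivity)
      _ = _ := mul_comm _ _
  · refine le_trans ?_ hlate
    have e2 : Real.exp (-(W1 * lam / 512)) ≤ Real.exp (-(W1 / 40)) :=
      Real.exp_le_exp.2 (by linarith)
    have hx3 : x ^ 3 ≤ W1 ^ 9 := by
      calc x ^ 3 ≤ (W1 ^ 3) ^ 3 := pow_le_pow_left₀ (by linarith) h4 3
        _ = W1 ^ 9 := by ring
    have e3 : 1 ≤ x ^ 3 * W1 := by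
      have : (1 : ℝ) ≤ x ^ 3 := one_le_pow₀ h3
      nlinarith
    have e4 : T + 1 ≤ 93 * W1 ^ 10 := by
      calc T + 1 ≤ 93 * (x ^ 3 * W1) := by linarith
        _ ≤ 93 * (W1 ^ 9 * W1) := by gcongr
        _ = _ := by ring
    calc 240 * r * K0 * (T + 1) * Real.exp (-(W1 * lam / 512))
        ≤ 240 * (9 * (C ^ 2 * W1 ^ 2)) * K0 * (93 * W1 ^ 10) * Real.exp (-(W1 / 40)) := by
          have : r ≤ 9 * (C ^ 2 * W1 ^ 2) := by linarith
          gcongr
      _ = (240 * 9 * 93 * K0 * C ^ 2) * W1 ^ 12 * Real.exp (-(W1 / 40)) := by ring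
      _ ≤ _ := by
          have e5 : C ^ 2 ≤ C ^ 4 := pow_le_pow_right₀ hC (by norm_num)
          have e6 : 240 * 9 * 93 * K0 * C ^ 2 ≤ 1350 * 9 * 544 * K0 * C ^ 4 := by
            have : 0 ≤ K0 * C ^ 2 := by positivity
            have : K0 * C ^ 2 ≤ K0 * C ^ 4 := by gcongr
            nlinarith
          gcongr

/-- the modulus of the innermost level is large -/
theorem exists_Q_ge (hm : 0 < m) (k : ℕ) : ∃ l0 : ℕ, ∀ l l' s : ℕ, l0 ≤ l' →
    DropP m k s l' l → Real.exp (0.499 * ((SS m (bL m k l) : ℝ) * lam)) ≤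
      Real.sqrt (QQ m k (sL m k l') k : ℕ) := by
  obtain ⟨l0, h0⟩ := exists_RT_ge hm k
  refine ⟨l0, fun l l' s hl' hP => ?_⟩
  have h1 := h0 l (hl'.trans hP.le)
  have h2 := RT_le_exp hm k (bL m k l')
  have h3 : RT m k (bL m k l) = RT m k (bL m k l') * QQ m k (sL m k l') k := by
    rw [hP.s', hP.QQ_inner, hP.bL_succ, Pool.Agent.Helper30.T5b.RT_succ]
  have h4 := SS_succ_ge hm (bL m k l')
  rw [← hP.bL_succ] at h4
  have h5 : (1000 : ℝ) * (SS m (bL m k l') : ℝ) ≤ SS m (bL m k l) := by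
    have h6 : 1000 * SS m (bL m k l') ≤ 2 ^ 250 * SS m (bL m k l') :=
      Nat.mul_le_mul_right _ (by norm_num)
    exact_mod_cast h6.trans h4
  have hlam := lam_gt
  rw [h3, Nat.cast_mul] at h1
  set Q := QQ m k (sL m k l') k with hQ
  refine Real.le_sqrt_of_sq_le ?_
  have h7 : Real.exp (0.499 * ((SS m (bL m k l) : ℝ) * lam)) ^ 2 =
      Real.exp (0.998 * ((SS m (bL m k l) : ℝ) * lam)) := by
    rw [← Real.exp_nat_mul]
    congr 1
    push_cast
    ring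
  rw [h7]
  have h8 : Real.exp (0.999 * ((SS m (bL m k l) : ℝ) * lam)) ≤
      Real.exp ((SS m (bL m k l') : ℝ) * lam) * (Q : ℝ) :=
    h1.trans (mul_le_mul_of_nonneg_right h2 (Nat.cast_nonneg _))
  have h9 : Real.exp (0.998 * ((SS m (bL m k l) : ℝ) * lam)) *
      Real.exp ((SS m (bL m k l') : ℝ) * lam) ≤
      Real.exp (0.999 * ((SS m (bL m k l) : ℝ) * lam)) := by
    rw [← Real.exp_add]
    apply Real.exp_le_exp.2
    nlinarith
  have h10 := h9.trans h8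
  rw [mul_comm] at h10
  exact le_of_mul_le_mul_left h10 (Real.exp_pos _)

/-- **Nb9D** -/
theorem pp_botD (m : ℕ) (hm : 2 ≤ m) : PpBotS Drop m (m ^ 2) := by
  classical
  have hm0 : 0 < m := by omega
  have hk0 : 0 < m ^ 2 := by positivity
  generalize hkdef : m ^ 2 = k at hk0 ⊢
  obtain ⟨C, hC1, hC2, hC3⟩ : ∃ C : ℝ, 1 ≤ C ∧ 128 ≤ C ∧ ((cY k : ℕ) : ℝ) ≤ C :=
    ⟨max 128 (cY k : ℕ), le_trans (by norm_num) (le_max_left _ _), le_max_left _ _,
      le_max_right _ _⟩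
  obtain ⟨W0, c0, hnum⟩ := exists_numD (KB k) C (one_le_KB k) hC1
  obtain ⟨l1, h1⟩ := exists_lateN hm k (max (W0 : ℝ) (10 ^ 7))
  obtain ⟨l2, h2⟩ := exists_Q_ge hm0 k
  obtain ⟨l3, h3⟩ := Pool.Agent.Helper50.T5b.card_Jx m k hm
  obtain ⟨l4, h4⟩ := dropP_near (m := m) (k := k) hm0 hk0
  obtain ⟨l5, h5⟩ := exists_dropU' hm k
  obtain ⟨l6, h6⟩ := exists_fR_sizes hm0 k
  refine ⟨max (max (max l1 l2) l3) (max (max l4 l5) l6), c0,
    fun t l' l hl' h hB hcase K hK hK' => ?_⟩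
  simp only [max_le_iff] at hl'
  obtain ⟨⟨⟨g1, g2⟩, g3⟩, ⟨g4, g5⟩, g6⟩ := hl'
  have hL := h1 l' g1
  have hJ := h3 t l' l g3 h
  obtain ⟨s, hP⟩ := h4 l l' g4 h.le h.near h.same hB
  have hQ := h2 l l' s g2 hP
  obtain ⟨hU, hA⟩ := h5 l l' s g5 hP
  obtain ⟨hf1, hf2⟩ := h6 l l' s g6 hP
  have hbb' := hL.bb
  have hbb : bb 0 ≤ mL m k l := hbb'.trans (Pool.Agent.Helper27.T5b.l1_mono _ h.le)
  have hsb := hcase.1
  have hsbk : sb m k t l' l = k := by rw [hsb, hP.rL1]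
  have hbs : sL m k l - sb m k t l' l = bL m k l := by
    rw [hsbk, hP.s1, hP.b1]
  have hW1 : wW m k l (sb m k t l' l) = SS m (bL m k l) := by
    unfold wW
    rw [hbs]
  have hD : 20 * (l - l') < 7 * wW m k l (sb m k t l' l) := by
    rw [hW1]
    exact hcase.2.1
  have hSS : SS m (bL m k l') ≤ SS m (bL m k l) := SS_mono m h.ble
  have hSS' : (SS m (bL m k l') : ℝ) ≤ (SS m (bL m k l) : ℝ) := by exact_mod_cast hSS
  have hc := hL.c.trans hSS'
  have hcW : (W0 : ℝ) ≤ (SS m (bL m k l) : ℝ) := (le_max_left _ _).trans hc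
  have hc7 : (10 : ℝ) ^ 7 ≤ (SS m (bL m k l) : ℝ) := (le_max_right _ _).trans hc
  have hc7' : (10 : ℝ) ^ 7 ≤ (SS m (bL m k l') : ℝ) := (le_max_right _ _).trans hL.c
  -- the quotient
  obtain ⟨x, hx⟩ : ∃ x, xq m (sL m k l - sb m k t l' l + hb m k t l' l - 1) = x := ⟨_, rfl⟩
  have hx1 : 1 ≤ x := by rw [← hx]; exact one_le_xq _ _
  have hx3 := xq_le_last hm h
  have hwt := wW_le hm0 h
  rw [hx] at hx3 hwt
  rw [hW1] at hx3 hwt
  have hx3' : (x : ℝ) ≤ (SS m (bL m k l) : ℝ) ^ 3 := by exact_mod_cast hx3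
  have hx1' : (1 : ℝ) ≤ x := by exact_mod_cast hx1
  have hwt' : (wW m k l t : ℝ) ≤ x ^ 3 * (SS m (bL m k l) : ℝ) := by
    rw [mul_comm]
    exact_mod_cast hwt
  -- the distance
  have hdist : (SS m (bL m k l) : ℝ) ^ 9 * 512 ^ c0 ≤ Real.exp ((lg m k l - lg m k l') / 2) := by
    refine le_trans ?_ (thousand_pow_le m k h.le)
    have e1 : aa m (bL m k l) ≤ aa m (sL m k l) / m := by
      have e2 : sL m k l = bL m k l + m ^ 2 := by
        rw [hP.s1, hP.b1, hkdef]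
        have := hP.ks
        omega
      rw [e2]
      exact aa_sq hm0 _
    have e3 : (SS m (bL m k l) : ℝ) ^ 9 = 512 ^ aa m (bL m k l) := by
      unfold SS
      push_cast
      rw [← pow_mul, mul_comm, pow_mul]
      norm_num
    rw [e3]
    calc (512 : ℝ) ^ aa m (bL m k l) * 512 ^ c0 = 512 ^ (aa m (bL m k l) + c0) :=
          (pow_add _ _ _).symm
      _ ≤ 512 ^ (l - l') := by
          refine pow_le_pow_right₀ (by norm_num) (le_trans ?_ hcase.2.2)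
          omega
      _ ≤ 1000 ^ (l - l') := pow_le_pow_left₀ (by norm_num) (by norm_num) _
  -- regularity
  have hρV1 : (1 : ℝ) ≤ (rhoV m k l' : ℕ) := by
    have e1 : rhoV m k l' = 128 * SS m (bL m k l') := rfl
    rw [e1]
    push_cast
    linarith
  have hρV : ((rhoV m k l' : ℕ) : ℝ) ≤ C * (SS m (bL m k l) : ℝ) := by
    have e1 : rhoV m k l' = 128 * SS m (bL m k l') := rfl
    rw [e1]
    push_cast
    exact mul_le_mul hC2 hSS' (by positivity) (by positivity)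
  have hρY : ((rhoY m k l : ℕ) : ℝ) ≤ C * (SS m (bL m k l) : ℝ) := by
    have e1 : rhoY m k l = cY k * SS m (bL m k l) := rfl
    rw [e1]
    push_cast
    exact mul_le_mul_of_nonneg_right hC3 (by positivity)
  have hρY1 := hU.rY1
  obtain ⟨W1, hW1def⟩ : ∃ W1 : ℝ, (SS m (bL m k l) : ℝ) = W1 := ⟨_, rfl⟩
  rw [hW1def] at hcW hc7 hx3' hwt' hdist hρV hρY hSS' hQ
  obtain ⟨wt, hwtdef⟩ : ∃ wt : ℝ, (wW m k l t : ℝ) = wt := ⟨_, rfl⟩
  rw [hwtdef] at hwt' hJ
  have hwt0 : W1 ≤ wt := by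
    rw [← hW1def, ← hwtdef, ← hW1]
    exact_mod_cast wW_anti m k l (show t ≤ sb m k t l' l from Nat.le_add_right _ _)
  set ρ : ℝ := ((rhoV m k l' : ℕ) : ℝ) * ((rhoY m k l : ℕ) : ℝ) with hρdef
  have hρ0 : 0 ≤ ρ := by positivity
  have hρle : ρ ≤ C ^ 2 * W1 ^ 2 := by
    calc ρ ≤ (C * W1) * (C * W1) := mul_le_mul hρV hρY (by positivity) (by positivity)
      _ = _ := by ring
  have hr9 : ((2 * rhoV m k l' * (2 * rhoY m k l) : ℕ) : ℝ) ≤ 9 * ρ := by
    push_cast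
    rw [hρdef]
    have : (0 : ℝ) ≤ ((rhoV m k l' : ℕ) : ℝ) * ((rhoY m k l : ℕ) : ℝ) := by positivity
    linarith
  obtain ⟨n1, n2, n3⟩ := hnum W1 x (lg m k l - lg m k l') hcW hc7 hx1' hx3' hdist (92 * wt)
    (by linarith) (by linarith) _ ρ (Nat.cast_nonneg _) hρ0 hρle hr9
  have hne : l' ≠ l := ne_of_lt h.lt
  have hB' : BKb m k l (K \ keysOf m k l') := fun v hv => by
    rw [mem_sdiff]
    exact ⟨BKb_of hm0 hbb hK v hv, V_notMem_keysOf hne⟩
  have hF' : (PN m k t l' l).F' (PN m k t l' l).h = FF m k l' k := by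
    have e1 : (PN m k t l' l).F' (PN m k t l' l).h = FF m k l' (sb m k t l' l) := rfl
    rw [e1, hsbk]
  have hmain : PrLe (Mk m k) K (fun w => ∃ c ∈ Jx m k t l' l, Real.exp (-1) <
      (PP (PN m k t l' l) (nTx m k t l' l c) (XTx m k t l' l c) (Vw m k l w)
        (DropP.UD m k l' w) : ℝ) * (PN m k t l' l).A (PN m k t l' l).h *
        (PN m k t l' l).pc (PN m k t l' l).h)
      (Real.exp (-(2 * (SS m (bL m k l') : ℝ))) + ((Jx m k t l' l).card : ℝ) *
        Real.exp (-(92 * wt))) := by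
    obtain ⟨W0', hLW⟩ : ∃ W0' : ℝ, ∀ c ∈ Jx m k t l' l, LastW (Mk m k) (PN m k t l' l)
        (lg m k l - lg m k l') (W1 * lam) W0'
        (lg m k (ef m k l (sb m k t l' l)) - lg m k l)
        (lg m k (ef m k l' (sb m k t l' l)) - lg m k l') (KB k)
        (nTx m k t l' l c) (XTx m k t l' l c) (IrB m k t l' l) := by
      obtain ⟨W0', hW0'⟩ := lastW_all hm0 h hL hD
      rw [hW1, hW1def] at hW0'
      exact ⟨W0', hW0'⟩
    exact drop_all hm0 hP hbb' (Jx m k t l' l) (nTx m k t l' l) (XTx m k t l' l) hLW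
      (Pool.Agent.Helper83.T5b.Jn_qN hm0 hP hbb') rfl hF' hc7 hK' hB' hU hA
      (Real.exp_pos _).le (rV := 2 * rhoV m k l') (rY := 2 * rhoY m k l) (by push_cast; exact le_rfl)
      (by push_cast; exact le_rfl) hρV1 hQ (by
        have e1 := AQ_ge hm0 (bL m k l')
        have e2 : 100 ≤ AQ m (bL m k l') := le_trans (by norm_num) e1
        calc (fR m k l' (k + 1) + 2) ^ 2 ≤ (2 * AQ m (bL m k l')) ^ 2 :=
              Nat.pow_le_pow_left (by omega) 2
          _ = 4 * AQ m (bL m k l') ^ 2 := by ring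
          _ ≤ AQ m (bL m k l') * AQ m (bL m k l') ^ 2 := Nat.mul_le_mul_right _ (by omega)
          _ = AQ m (bL m k l') ^ 3 := by ring
          _ ≤ _ := hf2) (by linarith) n1 n2 n3
  have hfin : PrLe (Mk m k) K (fun w => ∃ c ∈ Jx m k t l' l,
      Real.exp (-1) < PPx m k t l' l w c) (Real.exp (-(SS m (bL m k l') : ℝ))) := by
    refine PrLe_mono ?_ ?_ hmain
    · rintro r _ ⟨c, hcJ, hr⟩
      refine ⟨c, hcJ, ?_⟩
      unfold PPx at hr
      rw [hsb, Bw_last, ← hsb, hsbk, Bw_drop hm0 hP] at hr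
      exact hr
    · have e5 : (2 : ℝ) ≤ Real.exp (SS m (bL m k l') : ℝ) := by
        have := Real.add_one_le_exp (SS m (bL m k l') : ℝ)
        linarith
      set S' : ℝ := (SS m (bL m k l') : ℝ) with hS'
      have e6 : ((Jx m k t l' l).card : ℝ) * Real.exp (-(92 * wt)) ≤ Real.exp (-(2 * S')) := by
        calc ((Jx m k t l' l).card : ℝ) * Real.exp (-(92 * wt))
            ≤ Real.exp (90 * wt) * Real.exp (-(92 * wt)) := by gcongr
          _ = Real.exp (-(2 * wt)) := by rw [← Real.exp_add]; congr 1; ring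
          _ ≤ _ := Real.exp_le_exp.2 (by linarith)
      calc _ ≤ Real.exp (-(2 * S')) + Real.exp (-(2 * S')) := by linarith
        _ = 2 * Real.exp (-(2 * S')) := by ring
        _ ≤ Real.exp S' * Real.exp (-(2 * S')) :=
            mul_le_mul_of_nonneg_right e5 (Real.exp_pos _).le
        _ = Real.exp (-S') := by rw [← Real.exp_add]; congr 1; ring
  exact hfin

end Pool.Agent.Helper66.T5b
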