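import Pool.Agent.Helper22.NEARb.Stat
import Pool.Agent.Helper45.T5b.Nb7
import Pool.Agent.Helper66.T5b.PpBotD

/-!
# T5b: the block CaseStatD (near pairs across a DROP, common front of a static level which is
not the last front)
-/

set_option autoImplicit false

namespace Pool.Agent.Helper66.T5b

open Pool.Agent.Helper84.T5b Pool.Agent.Helper22.NEARb

/-- **`Blk CaseStatD RpC`** -/
theorem blk_statD : Blk CaseStatD RpC :=
  blk_statD_of (lines_drop (fun m hm => Pool.Agent.Helper45.T5b.pp_reg m (m ^ 2) hm)
    (fun m hm => pp_botD m hm))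

end Pool.Agent.Helper66.T5b

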