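import Pool.Agent.Helper66.T5.BotReg

/-!
# T5b: the bottom lemma across a drop for contexts with different numbers of targets
-/

set_option autoImplicit false

namespace Pool.Agent.Helper66.T5b

open Finset Pool.Agent.Helper1.ET4 Pool.Agent.Helper42.T5.Pr Pool.Agent.Helper50.T5
  Pool.Agent.Helper57.T4 Pool.Agent.Helper57.T5 Pool.Agent.Helper22.HW
  Pool.Agent.Helper41.T5 Pool.Agent.Helper45.T5 Pool.Agent.Helper66.T5

variable {κ : Type*} [DecidableEq κ] {M : κ → ℕ} {K K0 : Finset κ} {lo hi : Bool → ℕ}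
  {bk : Bool → ℕ → ℕ → κ}

/-- **The number `PP` of the last level across a drop, all contexts.** -/
theorem bot_drop_PP' {κ' C : Type*} {P : Pool.Agent.Helper22.SL.Pr κ'} {Mk : κ' → ℕ}
    {Ir : ℕ → ℕ} (hM : ∀ k, 0 < M k) (hK : K0 ⊆ K)
    (h : WinD M (K \ K0) lo hi bk) (hlo : 1 ≤ lo false) (hPO : P.Ok Mk)
    (J : Finset C) (I : C → ℕ) (X : C → ℕ → ℕ) {nI : ℕ} (hI : ∀ c ∈ J, I c ≤ nI)
    (hT : ∀ c ∈ J, Pool.Agent.Helper22.SL.Tg P (I c) (X c) Ir)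
    (U' : (κ → ℕ) → Finset ℕ)
    (hdep : ∀ w w', (∀ k ∈ K0, w k = w' k) → U' w = U' w')
    {q d ℓ : ℕ} (hq : q = P.M / P.M') (hq0 : 0 < q) (hd : d = P.F' P.h / P.M') (hd0 : 0 < d)
    (hℓ : ℓ = 5 * (P.F P.h / P.M') + 1) (R1 R2 t : ℕ)
    {A : (κ → ℕ) → Prop} {δ : ℝ} (hA : PrLe M K0 A δ)
    (hU1 : ∀ w, (∀ k, w k < M k) → ¬ A w →
      ∀ a, ((U' w).filter (fun u => a ≤ u ∧ u < a + ℓ)).card ≤ R1)
    (hU2 : ∀ w, (∀ k, w k < M k) → ¬ A w → ∀ r,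
      ((U' w).filter (fun u => u % (Nat.gcd d q) = r % (Nat.gcd d q))).card ≤ R2) :
    PrLe M K (fun w => ∃ c ∈ J, Ir P.h * R1 * t <
        Pool.Agent.Helper22.SL.PP P (I c) (X c) (Wd lo hi bk w false) (U' w))
      (δ + (J.card : ℝ) * (muE nI R2 ℓ q d (lo false) ^ t / (t.factorial : ℝ))) := by
  classical
  -- the class map and the arc of the context `c` do not depend on the windows
  obtain ⟨cl, a, hcl⟩ : ∃ (cl : C → ℕ → ℕ) (a : C → ℕ), ∀ c ∈ J, (∀ B B',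
      Pool.Agent.Helper22.SL.PP P (I c) (X c) B B' ≤ (Pool.Agent.Helper87.L3.trip (range (I c)) B B'
        (cl c) q d (a c) ℓ).card) ∧
      ∀ r, ((range (I c)).filter (fun i => cl c i ≡ r [MOD d])).card ≤ Ir P.h := by
    subst hq hd hℓ
    choose! cl a h1 using fun c (hc : c ∈ J) => PP_le_trip_all hPO (hT c hc)
    exact ⟨cl, a, h1⟩
  refine PrLe_mono ?_ le_rfl (botP_cond hM hK h hlo hq0 hd0 J U' hdep (fun c => range (I c)) cl a ℓ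
    (Ir P.h) R1 R2 nI t (fun c hc r => (hcl c hc).2 r)
    (fun c hc => by rw [card_range]; exact hI c hc) hA hU1 hU2)
  rintro r _ ⟨c, hc, hbig⟩
  exact ⟨c, hc, hbig.trans_le (((hcl c hc).1 _ _).trans (trip_le_hitsE _ _ _ _ _ _ _ _))⟩

variable {β : Type*}

/-- **BOT', arcs**: the number `PP` of the last level across a drop. -/
theorem drop_PP' {κ' C : Type*} {P : Pool.Agent.Helper22.SL.Pr κ'} {Mk : κ' → ℕ}
    {Ir : ℕ → ℕ} (hM : ∀ k, 0 < M k) (hK : K0 ⊆ K)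
    (h : WinD M (K \ K0) lo hi bk) (hlo : 1 ≤ lo false) (hPO : P.Ok Mk)
    (J : Finset C) (I : C → ℕ) (X : C → ℕ → ℕ) {nI : ℕ} (hI : ∀ c ∈ J, I c ≤ nI)
    (hT : ∀ c ∈ J, Pool.Agent.Helper22.SL.Tg P (I c) (X c) Ir)
    {Y : Finset β} {m : (κ → ℕ) → β → ℕ} {f Q : ℕ} {V' : (κ → ℕ) → Finset ℕ} {lo' hi' : ℕ}
    {H ρV ρY : ℝ} {A : (κ → ℕ) → Prop} {δ : ℝ} (hU : DropU M K0 Y m f Q V' lo' hi' H ρV ρY A)
    (hA : PrLe M K0 A δ)
    {q d ℓ g rV rY t : ℕ} {c1 μ : ℝ} (hq : q = P.M / P.M') (hq0 : 0 < q)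
    (hd : d = P.F' P.h / P.M') (hd0 : 0 < d) (hℓ : ℓ = 5 * (P.F P.h / P.M') + 1)
    (hg : g = Nat.gcd d q)
    (h1 : ((f + ℓ / Q + 2 : ℕ) : ℝ) ≤ Real.sqrt lo')
    (h2 : ((ℓ / f + 2 : ℕ) : ℝ) ≤ Real.sqrt Q) (hrV : 2 * ρV ≤ rV) (hrY : 2 * ρY ≤ rY)
    (hgQ : Nat.Coprime g Q) (hgf : g ∣ f ∨ f ∣ g) (h3 : (g : ℝ) ≤ f * Real.sqrt Q)
    (hc : Real.sqrt lo' * Real.sqrt Q ≤ c1 * Real.sqrt (lo false))
    (hμ : muD H ρV ρY c1 nI ℓ q d g ≤ μ) :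
    PrLe M K (fun w => ∃ c ∈ J, Ir P.h * (rV * rY) * t <
        Pool.Agent.Helper22.SL.PP P (I c) (X c) (Wd lo hi bk w false) (winU Y (m w) f Q (V' w)))
      (δ + (J.card : ℝ) * (μ ^ t / (t.factorial : ℝ))) := by
  have hg0 : 0 < g := by rw [hg]; exact Nat.gcd_pos_of_pos_left _ hd0
  obtain ⟨b1, b2⟩ := hU.bounds h1 h2 hrV hrY hg0 hgQ hgf h3
  have hB : 0 ≤ 2 * (1 + H) * ρV * ρY := by
    have := hU.hH; have := hU.rV0; have := hU.rY1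
    positivity
  have hgR : (0 : ℝ) < g := by exact_mod_cast hg0
  rw [hg] at b2
  refine PrLe_mono (fun _ _ h => h) ?_ (bot_drop_PP' hM hK h hlo hPO J I X hI hT
    (fun w => winU Y (m w) f Q (V' w)) hU.dep_win hq hq0 hd hd0 hℓ (rV * rY) _ t hA b1 b2)
  have h4 := muE_le (nI := nI) (ℓ := ℓ) (c1 := c1) rfl hq0 hd0 (lo := lo false) hlo hB
    (Nat.floor_le (a := 2 * (1 + H) * ρV * ρY * (Real.sqrt lo' * Real.sqrt Q / (Nat.gcd d q : ℕ)))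
      (by positivity)) hc
  rw [← hg] at h4 ⊢
  have h5 := h4.trans hμ
  have h6 : 0 ≤ muE nI ⌊2 * (1 + H) * ρV * ρY * (Real.sqrt lo' * Real.sqrt Q / (g : ℕ))⌋₊ ℓ q d
      (lo false) := by unfold muE; positivity
  gcongr

end Pool.Agent.Helper66.T5b
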