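import Pool.Agent.Helper66.T5b.PpLast
import Pool.Agent.Helper66.T5b.DropPP
import Pool.Agent.Helper83.T5b.DropBot
import Pool.Agent.Helper63.T5.SLNum

/-!
# T5b, line Nb9D: the last level across a DROP, all contexts
-/

set_option autoImplicit false

namespace Pool.Agent.Helper66.T5b

open Finset Pool.Agent.Helper22.SL Pool.Agent.Helper87.SL Pool.Agent.Helper57.T5
open Pool.Agent.Helper57.T5b (BKb winD_one kb2)
open Pool.Agent.Helper27.T4 (NN)
open Pool.Agent.Helper30.T5b (RT RT_pos)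
open Pool.Agent.Helper84.T5b Pool.Agent.Helper37.T5b
open Pool.Agent.Helper48.T5b (DropP mS fR)
open Pool.Agent.Helper83.T5b (qN qN_pos)
open Pool.Agent.Helper66.T5 (DropU muD winU tail_exp)
open Pool.Agent.Helper5.ET (bb)
open Pool.Agent.Helper42.T5.Pr (PrLe PrLe_mono PrLe_false)
open Pool.Agent.Helper63.T5 (lam lam_gt lam_lt)

variable {m k : ℕ}

theorem muD_nonneg {H ρV ρY c1 : ℝ} {nI ℓ q d g : ℕ} (hH : 0 ≤ H) (hV : 0 ≤ ρV) (hY : 0 ≤ ρY)
    (hc : 0 ≤ c1) : 0 ≤ muD H ρV ρY c1 nI ℓ q d g := by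
  unfold Pool.Agent.Helper66.T5.muD
  positivity

/-- the mean -/
theorem mu_le {κ : Type*} {M : κ → ℕ} {P : Pr κ} {d w W0 s s' K0 : ℝ} {I : ℕ} {X Ir : ℕ → ℕ}
    (h : LastW M P d w W0 s s' K0 I X Ir) {q g nI : ℕ} {ρV ρY : ℝ} (hMq : P.M = P.M' * q)
    (hρ : 0 ≤ ρV * ρY) (hg : (1 : ℝ) / g ≤ 1 / q + 1 / (P.F' P.h / P.M' : ℕ))
    (hs : 0 ≤ s) (hw : 0 ≤ w) (hnI : (nI : ℝ) ≤ Real.exp (d / 2)) :
    Real.exp (s' - s - d) * muD 16 ρV ρY 1 nI (5 * (P.F P.h / P.M') + 1) q (P.F' P.h / P.M') g ≤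
      544 * (ρV * ρY) * Real.exp (-(d / 2)) := by
  have hqd := h.q_eq hMq
  have hF := h.F_div
  have hF' := h.F'_div
  have hd0 := h.num.D0
  have hφ := h.phi_le
  have hφ0 : 0 < Real.exp (s' - s - d) := Real.exp_pos _
  have hφ1 : Real.exp (s' - s - d) ≤ 1 := hφ.trans (Real.exp_le_one_iff.2 (by linarith))
  rw [hqd, hF'] at hg
  unfold Pool.Agent.Helper66.T5.muD
  push_cast
  rw [hF, hqd, hF']
  have e1 : (5 * Real.exp (d + s) + 1) / (Real.exp d * Real.exp s') ≤ 6 * Real.exp (s - s') := by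
    rw [← Real.exp_add, div_le_iff₀ (Real.exp_pos _)]
    have a1 : (1 : ℝ) ≤ Real.exp (d + s) := Real.one_le_exp (by linarith)
    have a2 : 6 * Real.exp (s - s') * Real.exp (d + s') = 6 * Real.exp (d + s) := by
      rw [mul_assoc, ← Real.exp_add]
      congr 2
      ring
    rw [a2]
    linarith
  have e2 : (5 * Real.exp (d + s) + 1) / (Real.exp d * Real.exp s') + 1 / (g : ℝ) ≤
      6 * Real.exp (s - s') + (Real.exp (-d) + Real.exp (-s')) := by
    rw [Real.exp_neg, Real.exp_neg]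
    rw [one_div (Real.exp d), one_div (Real.exp s')] at hg
    linarith
  have e3 : Real.exp (s' - s - d) * (6 * Real.exp (s - s') + (Real.exp (-d) + Real.exp (-s'))) ≤
      8 * Real.exp (-d) := by
    have a1 : Real.exp (s' - s - d) * Real.exp (s - s') = Real.exp (-d) := by
      rw [← Real.exp_add]
      congr 1
      ring
    have a2 : Real.exp (s' - s - d) * Real.exp (-s') ≤ Real.exp (-d) := by
      rw [← Real.exp_add]
      apply Real.exp_le_exp.2
      linarith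
    have a3 : Real.exp (s' - s - d) * Real.exp (-d) ≤ Real.exp (-d) := by
      exact mul_le_of_le_one_left (Real.exp_pos _).le hφ1
    calc _ = 6 * (Real.exp (s' - s - d) * Real.exp (s - s')) +
          (Real.exp (s' - s - d) * Real.exp (-d) + Real.exp (s' - s - d) * Real.exp (-s')) := by
          ring
      _ ≤ 6 * Real.exp (-d) + (Real.exp (-d) + Real.exp (-d)) := by rw [a1]; linarith
      _ = _ := by ring
  have e4 : 0 ≤ (5 * Real.exp (d + s) + 1) / (Real.exp d * Real.exp s') + 1 / (g : ℝ) := by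
    positivity
  calc Real.exp (s' - s - d) * (2 * (2 * (1 + 16) * ρV * ρY) * 1 * ((nI : ℝ) *
        ((5 * Real.exp (d + s) + 1) / (Real.exp d * Real.exp s') + 1 / (g : ℝ))))
      = 68 * (ρV * ρY) * ((nI : ℝ) * (Real.exp (s' - s - d) *
        ((5 * Real.exp (d + s) + 1) / (Real.exp d * Real.exp s') + 1 / (g : ℝ)))) := by ring
    _ ≤ 68 * (ρV * ρY) * (Real.exp (d / 2) * (Real.exp (s' - s - d) *
        (6 * Real.exp (s - s') + (Real.exp (-d) + Real.exp (-s'))))) := by gcongr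
    _ ≤ 68 * (ρV * ρY) * (Real.exp (d / 2) * (8 * Real.exp (-d))) := by gcongr
    _ = 544 * (ρV * ρY) * (Real.exp (d / 2) * Real.exp (-d)) := by ring
    _ = _ := by
        rw [← Real.exp_add]
        congr 2
        ring

/-- **all contexts across a DROP** -/
theorem drop_all {C : Type*} (hm : 0 < m) {l l' u : ℕ} (hP : DropP m k u l' l)
    (hbb : bb 0 ≤ mL m k l') {P : Pr Key} {d W1 W0 s s' K0 : ℝ} {Ir : ℕ → ℕ} (J : Finset C)
    (I : C → ℕ) (X : C → ℕ → ℕ)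
    (h : ∀ c ∈ J, LastW (Mk m k) P d (W1 * lam) W0 s s' K0 (I c) (X c) Ir)
    (hMq : P.M = P.M' * qN m k l' l) (hM' : P.M' = Jn m k (sL m k l) l')
    (hF' : P.F' P.h = FF m k l' k) (hW1 : 10 ^ 7 ≤ W1)
    {K K1 : Finset Key} (hK1 : K1 ⊆ K) (hB : BKb m k l (K \ K1))
    {ρV ρY δ : ℝ} {A : (Key → ℕ) → Prop}
    (hU : DropU (Mk m k) K1 (Ys m k l' k) (fun w y => mS m k l' k w 0 y) (fR m k l' (k + 1))
      (QQ m k (sL m k l') k) (Vw m k l') (RT m k (bL m k l')) (16 * RT m k (bL m k l')) 16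
      ρV ρY A) (hA : PrLe (Mk m k) K1 A δ) (hδ : 0 ≤ δ) {rV rY : ℕ} (hrV : 2 * ρV ≤ rV)
    (hrY : 2 * ρY ≤ rY) (hρV : 1 ≤ ρV)
    (hQ : Real.exp (0.499 * (W1 * lam)) ≤ Real.sqrt (QQ m k (sL m k l') k : ℕ))
    (hf : (fR m k l' (k + 1) + 2) ^ 2 ≤ RT m k (bL m k l'))
    {T : ℝ} (hT : 0 ≤ T)
    (h1 : 1350 * ((rV * rY : ℕ) : ℝ) * K0 * (544 * (ρV * ρY)) *
      Real.exp (-(0.00535 * (W1 * lam))) ≤ 1)
    (h2 : 1350 * ((rV * rY : ℕ) : ℝ) * K0 * (544 * (ρV * ρY)) * Real.exp (-(d / 2)) ≤ 1)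
    (h3 : 240 * ((rV * rY : ℕ) : ℝ) * K0 * (T + 1) * Real.exp (-(W1 * lam / 512)) ≤ 1) :
    PrLe (Mk m k) K (fun w => ∃ c ∈ J, Real.exp (-1) <
      (PP P (I c) (X c) (Vw m k l w) (DropP.UD m k l' w) : ℝ) * P.A P.h * P.pc P.h)
      (δ + (J.card : ℝ) * Real.exp (-T)) := by
  classical
  rcases J.eq_empty_or_nonempty with h0 | ⟨c0, hc0⟩
  · subst h0
    refine PrLe_false ?_ (by simpa using hδ)
    rintro r _ ⟨c, hc, _⟩
    simp at hc
  have hc := h c0 hc0
  have hN := hc.num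
  have hlam := lam_gt
  have hlam2 := lam_lt
  set w1 : ℝ := W1 * lam with hw1
  have hW13 : 13 * W1 ≤ w1 := by
    rw [hw1, mul_comm]
    exact mul_le_mul_of_nonneg_left (by linarith only [hlam]) (by linarith only [hW1])
  have hw0 : 0 ≤ w1 := by linarith
  have hd0 := hN.D0
  have hdw := hc.dw
  have hsl := hN.sl
  have hsu := hN.su
  have hsl' := hN.sl'
  have hsu' := hN.su'
  have hll := hP.le
  have hss : sL m k l' = sL m k l := hP.s'.trans hP.s1.symm
  have hJ0 : 0 < Jn m k (sL m k l) l' := Pool.Agent.Helper27.T5b.Jn_pos _ _ _ _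
  have hq := Pool.Agent.Helper83.T5b.Jn_qN hm hP hbb
  have hq0 := qN_pos m k hll
  have hqd := hc.q_eq hMq
  have hF := hc.F_div
  have hF'd := hc.F'_div
  -- the moduli
  have hdf : P.F' P.h / P.M' = fR m k l' k := by
    rw [hF', hM', ← hss]
    rfl
  set q := qN m k l' l with hqdef
  set D := P.F' P.h / P.M' with hDdef
  set f := fR m k l' (k + 1) with hfdef
  set Q := QQ m k (sL m k l') k with hQdef
  have hD0 : 0 < D := by
    have : (0 : ℝ) < (D : ℕ) := by rw [hF'd]; exact Real.exp_pos _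
    exact_mod_cast this
  have hJD : Jn m k (sL m k l) l' * D = Jn m k (sL m k l) (ef m k l' k) := by
    have e1 := Pool.Agent.Helper48.T5b.fR_mul (k := k) hm l' k
    rw [hss] at e1
    rw [hdf, e1]
    unfold FF
    rw [hss]
  have hJf : Jn m k (sL m k l) l' * f = Jn m k (sL m k l) (ef m k l' (k + 1)) := by
    have e1 := Pool.Agent.Helper48.T5b.fR_mul (k := k) hm l' (k + 1)
    rw [hss] at e1
    rw [e1]
    unfold FF
    rw [hss]
  have hff : ef m k l' (k + 1) ≤ ef m k l' k := by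
    unfold ef
    exact Pool.Agent.Helper30.T5b.ez_le hm (by omega) l'
  have hfD : f ∣ D := by
    refine Nat.dvd_of_mul_dvd_mul_left hJ0 ?_
    rw [hJD, hJf]
    exact Pool.Agent.Helper44.T5b.Jn_dvd m k (sL m k l) hff
  have hqf : q ∣ f ∨ f ∣ q := by
    rcases Nat.le_total l (ef m k l' (k + 1)) with hc | hc
    · left
      refine Nat.dvd_of_mul_dvd_mul_left hJ0 ?_
      rw [← hq, hJf]
      exact Pool.Agent.Helper44.T5b.Jn_dvd m k (sL m k l) hc
    · right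
      refine Nat.dvd_of_mul_dvd_mul_left hJ0 ?_
      rw [← hq, hJf]
      exact Pool.Agent.Helper44.T5b.Jn_dvd m k (sL m k l) hc
  have hqD : q ∣ D ∨ D ∣ q := by
    rcases Nat.le_total l (ef m k l' k) with hc | hc
    · left
      refine Nat.dvd_of_mul_dvd_mul_left hJ0 ?_
      rw [← hq, hJD]
      exact Pool.Agent.Helper44.T5b.Jn_dvd m k (sL m k l) hc
    · right
      refine Nat.dvd_of_mul_dvd_mul_left hJ0 ?_
      rw [← hq, hJD]
      exact Pool.Agent.Helper44.T5b.Jn_dvd m k (sL m k l) hc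
  obtain ⟨g, hg⟩ : ∃ g, g = Nat.gcd D q := ⟨_, rfl⟩
  have hgor : g = q ∨ g = D := by
    rcases hqD with hc | hc
    · left
      rw [hg]
      exact Nat.gcd_eq_right hc
    · right
      rw [hg]
      exact Nat.gcd_eq_left hc
  have hgf : g ∣ f ∨ f ∣ g := by
    rcases hgor with hc | hc
    · rw [hc]
      exact hqf
    · rw [hc]
      exact Or.inr hfD
  have hqR : (0 : ℝ) < q := by exact_mod_cast hq0
  have hDR : (0 : ℝ) < D := by exact_mod_cast hD0
  have hg1 : (1 : ℝ) / g ≤ 1 / q + 1 / (D : ℕ) := by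
    rcases hgor with hc | hc
    · rw [hc]
      have : (0 : ℝ) ≤ 1 / (D : ℕ) := by positivity
      linarith
    · rw [hc]
      have : (0 : ℝ) ≤ 1 / (q : ℕ) := by positivity
      linarith
  -- coprimality
  have hcop : Nat.Coprime g Q := by
    have e0 : g ∣ q := by rw [hg]; exact Nat.gcd_dvd_right _ _
    have e1 : g ∣ Jn m k (sL m k l) l := by
      rw [hq]
      exact e0.mul_left _
    refine Nat.Coprime.coprime_dvd_left e1 ?_
    have e2 : Q ∣ LL (QQ m k (sL m k l)) (k + 1) := by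
      rw [LL_succ, ← hss]
      exact dvd_mul_left _ _
    refine Nat.Coprime.coprime_dvd_right e2 ?_
    unfold Jn NN
    refine Nat.Coprime.prod_left (fun i _ => Nat.Coprime.pow_left _ ?_)
    refine (Pool.Agent.Helper44.T5b.coprime_LL_pJ ?_ (by omega) i).symm
    rw [hP.s1]
    have := hP.ks
    omega
  -- sizes
  have hQ0 : (0 : ℝ) < Q := by exact_mod_cast hU.hQ
  have hsQ : Real.sqrt Q * Real.sqrt Q = Q := Real.mul_self_sqrt hQ0.le
  have hsQ1 : (1 : ℝ) ≤ Real.sqrt Q := (Real.one_le_exp (by positivity)).trans hQ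
  obtain ⟨ℓ, hℓ⟩ : ∃ ℓ, ℓ = 5 * (P.F P.h / P.M') + 1 := ⟨_, rfl⟩
  have hℓR : (ℓ : ℝ) = 5 * Real.exp (d + s) + 1 := by
    rw [hℓ]
    push_cast
    rw [hF]
  have h8 : (9 : ℝ) ≤ Real.exp (0.13 * w1) := by
    have e1 := Real.add_one_le_exp (0.13 * w1)
    linarith
  have hℓ2 : (ℓ : ℝ) + 3 ≤ Real.sqrt Q := by
    have a1 : (1 : ℝ) ≤ Real.exp (0.364 * w1) := Real.one_le_exp (by linarith)
    have a2 : Real.exp (d + s) ≤ Real.exp (0.364 * w1) := Real.exp_le_exp.2 (by linarith)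
    calc (ℓ : ℝ) + 3 ≤ 9 * Real.exp (0.364 * w1) := by rw [hℓR]; linarith
      _ ≤ Real.exp (0.13 * w1) * Real.exp (0.364 * w1) := by gcongr
      _ = Real.exp (0.494 * w1) := by rw [← Real.exp_add]; congr 1; ring
      _ ≤ Real.exp (0.499 * w1) := Real.exp_le_exp.2 (by linarith)
      _ ≤ _ := hQ
  have hℓQ : ℓ / Q = 0 := by
    refine Nat.div_eq_of_lt ?_
    have a1 : Real.sqrt Q * 1 ≤ Real.sqrt Q * Real.sqrt Q :=
      mul_le_mul_of_nonneg_left hsQ1 (Real.sqrt_nonneg _)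
    have : (ℓ : ℝ) < Q := by linarith only [a1, hsQ, hℓ2]
    exact_mod_cast this
  set nI : ℕ := ⌊Real.exp (d / 2)⌋₊ with hnI
  have hnI2 : (nI : ℝ) ≤ Real.exp (d / 2) := Nat.floor_le (Real.exp_pos _).le
  have hIn : ∀ c ∈ J, I c ≤ nI := fun c hcJ => Nat.le_floor (h c hcJ).IJ
  have hρ : 1 ≤ ρV * ρY := one_le_mul_of_one_le_of_one_le hρV hU.rY1
  obtain ⟨mu, hmu⟩ : ∃ mu, mu = muD 16 ρV ρY 1 nI ℓ q D g := ⟨_, rfl⟩
  have hmu0 : 0 ≤ mu := by
    rw [hmu]
    exact muD_nonneg (by norm_num) hU.rV0 (zero_le_one.trans hU.rY1) zero_le_one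
  have hmu1 : Real.exp (s' - s - d) * mu ≤ 544 * (ρV * ρY) * Real.exp (-(d / 2)) := by
    rw [hmu, hℓ]
    exact mu_le hc hMq (by linarith) hg1 (by linarith) hw0 hnI2
  -- the number `t`
  have hrr : 1 ≤ rV * rY := by
    have a1 : (0 : ℝ) < rV := by linarith
    have a2 : (0 : ℝ) < rY := by linarith [hU.rY1]
    have a3 : 0 < rV := by exact_mod_cast a1
    have a4 : 0 < rY := by exact_mod_cast a2
    exact Nat.mul_pos a3 a4
  have hI1 := hc.I1
  have hrr' : (1 : ℝ) ≤ ((rV * rY : ℕ) : ℝ) := by exact_mod_cast hrr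
  obtain ⟨tt, f1, f2, f3⟩ := hc.pick (c1 := Ir P.h * (rV * rY)) (r0 := ((rV * rY : ℕ) : ℝ))
    (C0 := 544 * (ρV * ρY)) (T := T) (mu := mu) (Nat.mul_pos hI1 hrr) (by
      rw [Nat.cast_mul (Ir P.h)]
      have : (0 : ℝ) ≤ (Ir P.h : ℝ) * ((rV * rY : ℕ) : ℝ) :=
        mul_nonneg (Nat.cast_nonneg _) (Nat.cast_nonneg _)
      linarith only [this]) hrr' (by linarith) hT hmu0 hmu1 h1 h2 h3
  have hMM : q = P.M / P.M' := by
    rw [hMq, Nat.mul_div_cancel_left _ (by rw [hM']; exact hJ0)]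
  have hmain := drop_PP' (fun κ => Mk_pos m k κ) hK1 (winD_one (m := m) (k := k) (l := l) hB)
    (show 1 ≤ RT m k (bL m k l) from RT_pos _ _ _) hc.ok J I X hIn (fun c hcJ => (h c hcJ).tg)
    hU hA (q := q) (d := D) (ℓ := ℓ) (g := g) (rV := rV) (rY := rY) (t := tt) (c1 := 1) (μ := mu)
    hMM hq0 hDdef hD0 hℓ hg (by
      rw [hℓQ]
      refine Real.le_sqrt_of_sq_le ?_
      exact_mod_cast hf) (by
      refine le_trans ?_ hℓ2
      have : ℓ / f + 2 ≤ ℓ + 3 := by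
        have := Nat.div_le_self ℓ f
        omega
      exact_mod_cast this) hrV hrY hcop hgf (by
      have e1 : (g : ℝ) ≤ D := by
        have : g ≤ D := by rw [hg]; exact Nat.gcd_le_left _ hD0
        exact_mod_cast this
      have e2 : (1 : ℝ) ≤ f := by
        exact_mod_cast Pool.Agent.Helper48.T5b.fR_pos (k := k) hm l' (k + 1)
      have e3 : (D : ℝ) ≤ Real.sqrt Q := by
        refine le_trans ?_ hQ
        rw [hF'd]
        exact Real.exp_le_exp.2 (by linarith)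
      have e4 : 0 ≤ Real.sqrt Q := Real.sqrt_nonneg _
      have e5 : 1 * Real.sqrt Q ≤ (f : ℝ) * Real.sqrt Q := mul_le_mul_of_nonneg_right e2 e4
      linarith only [e1, e3, e5]) (by
      rw [one_mul]
      have e1 : RT m k (bL m k l) = RT m k (bL m k l') * Q := by
        rw [hQdef, hP.s', hP.QQ_inner, hP.bL_succ, Pool.Agent.Helper30.T5b.RT_succ]
      show Real.sqrt (RT m k (bL m k l') : ℝ) * Real.sqrt (Q : ℝ) ≤
        Real.sqrt ((RT m k (bL m k l) : ℕ) : ℝ)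
      rw [e1, Nat.cast_mul, Real.sqrt_mul (Nat.cast_nonneg _)]) hmu.ge
  refine PrLe_mono ?_ ?_ hmain
  · rintro r _ ⟨c, hcJ, hr⟩
    refine ⟨c, hcJ, ?_⟩
    by_contra hcon
    rw [not_lt] at hcon
    exact absurd hr (not_lt.2 (f3 _ hcon))
  · have t1 := tail_exp hmu0 f1
    have t4 : Real.exp (-(tt : ℝ)) ≤ Real.exp (-T) := Real.exp_le_exp.2 (by linarith)
    have t5 : mu ^ tt / (tt.factorial : ℝ) ≤ Real.exp (-T) := t1.trans t4
    exact add_le_add le_rfl (mul_le_mul_of_nonneg_left t5 (Nat.cast_nonneg _))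

end Pool.Agent.Helper66.T5b
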