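import Pool.Agent.Helper66.T5b.PpNum
import Pool.Agent.Helper87.SL.NumDefs
import Pool.Agent.Helper57.T5.BotKey

/-!
# T5b, lines Nb9, Nb9D: the last level of the static block, abstract form
-/

set_option autoImplicit false

namespace Pool.Agent.Helper66.T5b

open Finset Pool.Agent.Helper22.SL Pool.Agent.Helper87.SL Pool.Agent.Helper57.T5

variable {κ : Type*} {M : κ → ℕ}

/-- the data of the last level: `d = log (M / M')`, `s = log (F / M)`, `s' = log (F' / M')`, `w` is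
the size of the last windows -/
structure LastW (M : κ → ℕ) (P : Pr κ) (d w W0 s s' K0 : ℝ) (I : ℕ) (X Ir : ℕ → ℕ) : Prop where
  ok : P.Ok M
  num : NumL P d w W0 s s' K0
  jump : (P.F' P.h : ℝ) * Real.exp (w / 512) ≤ P.F P.h
  dw : d ≤ 0.351 * w
  h1 : 1 ≤ P.h
  tg : Tg P I X Ir
  I1 : 1 ≤ Ir P.h
  I2 : (Ir P.h : ℝ) ≤ Real.exp ((d - s') / 2) + 1
  IJ : (I : ℝ) ≤ Real.exp (d / 2)

namespace LastW

variable {P : Pr κ} {d w W0 s s' K0 : ℝ} {I : ℕ} {X Ir : ℕ → ℕ}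

theorem Mpos (h : LastW M P d w W0 s s' K0 I X Ir) : (0 : ℝ) < P.M' := by
  exact_mod_cast h.num.M'0

theorem Fpos (h : LastW M P d w W0 s s' K0 I X Ir) : (0 : ℝ) < P.F P.h := by
  rw [h.num.F, h.num.M]
  have := h.Mpos
  positivity

theorem F'pos (h : LastW M P d w W0 s s' K0 I X Ir) : (0 : ℝ) < P.F' P.h := by
  rw [h.num.F']
  have := h.Mpos
  positivity

theorem ratio (h : LastW M P d w W0 s s' K0 I X Ir) :
    (P.F' P.h : ℝ) / P.F P.h = Real.exp (s' - s - d) := by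
  have h1 := h.Mpos
  rw [h.num.F, h.num.F', h.num.M, Real.exp_sub, Real.exp_sub]
  field_simp

theorem phi_le (h : LastW M P d w W0 s s' K0 I X Ir) :
    Real.exp (s' - s - d) ≤ Real.exp (-(w / 512)) := by
  rw [← h.ratio, div_le_iff₀ h.Fpos, Real.exp_neg, inv_mul_eq_div, le_div_iff₀ (Real.exp_pos _)]
  exact h.jump

theorem pc_pos (h : LastW M P d w W0 s s' K0 I X Ir) : 0 < P.pc P.h := by
  obtain ⟨t1, ht1⟩ : ∃ t1, P.h = t1 + 1 := ⟨P.h - 1, by have := h.h1; omega⟩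
  have e1 : P.pc P.h = (P.F' P.h : ℝ) / P.F P.h + 1 / (P.q t1 2 : ℝ) := by
    rw [ht1]
    rfl
  rw [e1]
  have e2 : (0 : ℝ) < (P.q t1 2 : ℝ) := (Real.exp_pos _).trans_le (h.num.q2 t1 ht1)
  have := h.Fpos
  have := h.F'pos
  positivity

theorem pc_le (h : LastW M P d w W0 s s' K0 I X Ir) :
    P.pc P.h ≤ 2 * Real.exp (s' - s - d) := by
  obtain ⟨t1, ht1⟩ : ∃ t1, P.h = t1 + 1 := ⟨P.h - 1, by have := h.h1; omega⟩
  have e1 : P.pc P.h = (P.F' P.h : ℝ) / P.F P.h + 1 / (P.q t1 2 : ℝ) := by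
    rw [ht1]
    rfl
  have e2 := h.num.q2 t1 ht1
  have e3 := h.num.deep
  have e4 : 1 / (P.q t1 2 : ℝ) ≤ Real.exp (s' - s - d) := by
    rw [one_div]
    refine (inv_anti₀ (Real.exp_pos _) e2).trans ?_
    rw [← Real.exp_neg]
    apply Real.exp_le_exp.2
    have e5 := h.num.su
    have e6 := h.num.sl'
    have e7 := h.dw
    have e8 := h.num.w0
    linarith
  rw [e1, h.ratio]
  linarith

theorem A_pos (h : LastW M P d w W0 s s' K0 I X Ir) : 0 < P.A P.h := by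
  unfold Pr.A
  refine Finset.prod_pos (fun r _ => ?_)
  have e1 : (0 : ℝ) < P.p r 0 := by exact_mod_cast (h.ok.prime r 0).pos
  have e2 : (0 : ℝ) < P.p r 1 := by exact_mod_cast (h.ok.prime r 1).pos
  exact mul_pos (mul_pos (by norm_num) e1) e2

/-- **the number `t`** -/
theorem pick (h : LastW M P d w W0 s s' K0 I X Ir) {c1 : ℕ} {r0 C0 T mu : ℝ} (hc0 : 0 < c1)
    (hc1 : (c1 : ℝ) ≤ 3 * (Ir P.h * r0)) (hr0 : 1 ≤ r0) (hC0 : 1 ≤ C0) (hT : 0 ≤ T)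
    (hmu0 : 0 ≤ mu) (hmu : Real.exp (s' - s - d) * mu ≤ C0 * Real.exp (-(d / 2)))
    (h1 : 1350 * r0 * K0 * C0 * Real.exp (-(0.00535 * w)) ≤ 1)
    (h2 : 1350 * r0 * K0 * C0 * Real.exp (-(d / 2)) ≤ 1)
    (h3 : 240 * r0 * K0 * (T + 1) * Real.exp (-(w / 512)) ≤ 1) :
    ∃ tt : ℕ, Real.exp 2 * mu ≤ tt ∧ T ≤ tt ∧
      ∀ n : ℕ, n ≤ c1 * tt → (n : ℝ) * P.A P.h * P.pc P.h ≤ Real.exp (-1) := by
  have hA0 := h.A_pos
  have hpc0 := h.pc_pos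
  have hc0' : (0 : ℝ) < c1 := by exact_mod_cast hc0
  set Z : ℝ := (c1 : ℝ) * P.A P.h * P.pc P.h with hZ
  have hZ0 : 0 < Z := by positivity
  have hI1 : (1 : ℝ) ≤ Ir P.h := by exact_mod_cast h.I1
  have hZle : Z ≤ 6 * ((Ir P.h : ℝ) * r0) * K0 * Real.exp (s' - s - d) := by
    have e1 : (c1 : ℝ) * P.A P.h ≤ 3 * (Ir P.h * r0) * K0 :=
      mul_le_mul hc1 h.num.A hA0.le (by positivity)
    have e2 : 0 ≤ 3 * ((Ir P.h : ℝ) * r0) * K0 := by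
      have := h.num.K1
      positivity
    calc Z ≤ 3 * (Ir P.h * r0) * K0 * (2 * Real.exp (s' - s - d)) :=
          mul_le_mul e1 h.pc_le hpc0.le e2
      _ = _ := by ring
  have hmain := pp_gen hZ0.le hZle hr0 hI1 h.I2 h.num.K1 hC0 rfl h.phi_le hmu h.num.sl h.num.sl'
    h.num.su' h.num.D0 hT h1 h2 h3
  obtain ⟨f1, f2, f3⟩ := pp_floor hZ0 rfl hmu0 hT hmain
  refine ⟨_, f1, f2, fun n hn => ?_⟩
  have e1 : (n : ℝ) ≤ c1 * (⌊Real.exp (-1) / Z⌋₊ : ℕ) := by exact_mod_cast hn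
  calc (n : ℝ) * P.A P.h * P.pc P.h
      ≤ c1 * (⌊Real.exp (-1) / Z⌋₊ : ℕ) * P.A P.h * P.pc P.h := by gcongr
    _ = Z * (⌊Real.exp (-1) / Z⌋₊ : ℕ) := by rw [hZ]; ring
    _ ≤ Real.exp (-1) := f3

theorem q_eq (h : LastW M P d w W0 s s' K0 I X Ir) {q : ℕ} (hq : P.M = P.M' * q) :
    (q : ℝ) = Real.exp d := by
  have h1 := h.Mpos
  have h2 := h.num.M
  rw [hq, Nat.cast_mul] at h2
  exact mul_left_cancel₀ h1.ne' h2

theorem F_div (h : LastW M P d w W0 s s' K0 I X Ir) :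
    ((P.F P.h / P.M' : ℕ) : ℝ) = Real.exp (d + s) := by
  have h1 := h.Mpos
  rw [Nat.cast_div ((h.ok.M'F' P.h le_rfl).trans (h.ok.F'F P.h le_rfl)) h1.ne', h.num.F, h.num.M,
    Real.exp_add]
  field_simp

theorem F'_div (h : LastW M P d w W0 s s' K0 I X Ir) :
    ((P.F' P.h / P.M' : ℕ) : ℝ) = Real.exp s' := by
  have h1 := h.Mpos
  rw [Nat.cast_div (h.ok.M'F' P.h le_rfl) h1.ne', h.num.F']
  field_simp

theorem FF'_div (h : LastW M P d w W0 s s' K0 I X Ir) :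
    ((P.F P.h / P.F' P.h : ℕ) : ℝ) = (Real.exp (s' - s - d))⁻¹ := by
  rw [← h.ratio, inv_div, Nat.cast_div (h.ok.F'F P.h le_rfl) h.F'pos.ne']

end LastW

end Pool.Agent.Helper66.T5b
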