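import Pool.Agent.Helper66.T5.PpNum

/-!
# T5b, lines Nb9, Nb9D: the numbers
-/

set_option autoImplicit false

namespace Pool.Agent.Helper66.T5b

open Real Pool.Agent.Helper66.T5

/-- the condition on the number `t` -/
theorem pp_gen {Z Ih r0 K0 C0 φ d s s' w T mu : ℝ} (hZ0 : 0 ≤ Z)
    (hZ : Z ≤ 6 * (Ih * r0) * K0 * φ) (hr0 : 1 ≤ r0) (hIh0 : 1 ≤ Ih)
    (hIh : Ih ≤ exp ((d - s') / 2) + 1) (hK0 : 1 ≤ K0) (hC0 : 1 ≤ C0)
    (hφ : φ = exp (s' - s - d)) (hφw : φ ≤ exp (-(w / 512)))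
    (hmu : φ * mu ≤ C0 * exp (-(d / 2))) (hs : 0.0107 * w ≤ s) (hs' : 0.0107 * w ≤ s')
    (hsu' : s' ≤ 0.0128 * w) (hd0 : 0 ≤ d) (hT : 0 ≤ T)
    (h1 : 1350 * r0 * K0 * C0 * exp (-(0.00535 * w)) ≤ 1)
    (h2 : 1350 * r0 * K0 * C0 * exp (-(d / 2)) ≤ 1)
    (h3 : 240 * r0 * K0 * (T + 1) * exp (-(w / 512)) ≤ 1) :
    Z * (exp 2 * mu + T + 1) ≤ exp (-1) := by
  have hφ0 : 0 < φ := by rw [hφ]; exact exp_pos _
  have e2 := exp_two_lt
  have e1 := exp_neg_one_gt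
  have hIr : 0 ≤ Ih * r0 := by positivity
  have hZ6 : 0 ≤ 6 * (Ih * r0) * K0 * φ := by positivity
  have hIe : Ih * exp (-(d / 2)) ≤ exp (-(0.00535 * w)) + exp (-(d / 2)) := by
    calc Ih * exp (-(d / 2)) ≤ (exp ((d - s') / 2) + 1) * exp (-(d / 2)) :=
          mul_le_mul_of_nonneg_right hIh (exp_pos _).le
      _ = exp (-(s' / 2)) + exp (-(d / 2)) := by
          rw [add_mul, ← Real.exp_add, one_mul]
          congr 2
          ring
      _ ≤ _ := by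
          have : exp (-(s' / 2)) ≤ exp (-(0.00535 * w)) := Real.exp_le_exp.2 (by linarith)
          linarith
  have T1 : 6 * (Ih * r0) * K0 * φ * (exp 2 * mu) ≤ 1 / 15 := by
    calc 6 * (Ih * r0) * K0 * φ * (exp 2 * mu) = (6 * exp 2) * (r0 * K0) * (Ih * (φ * mu)) := by
          ring
      _ ≤ (6 * exp 2) * (r0 * K0) * (Ih * (C0 * exp (-(d / 2)))) := by gcongr
      _ = (6 * exp 2) * (r0 * K0 * C0) * (Ih * exp (-(d / 2))) := by ring
      _ ≤ 45 * (r0 * K0 * C0) * (exp (-(0.00535 * w)) + exp (-(d / 2))) := by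
          refine mul_le_mul (mul_le_mul_of_nonneg_right (by linarith) (by positivity)) hIe
            (by positivity) (by positivity)
      _ = (1350 * r0 * K0 * C0 * exp (-(0.00535 * w)) +
            1350 * r0 * K0 * C0 * exp (-(d / 2))) / 30 := by ring
      _ ≤ 1 / 15 := by linarith
  have hIφ : Ih * φ ≤ 2 * exp (-(w / 512)) := by
    calc Ih * φ ≤ (exp ((d - s') / 2) + 1) * φ := mul_le_mul_of_nonneg_right hIh hφ0.le
      _ = exp (-(d / 2) + s' / 2 - s) + φ := by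
          rw [add_mul, one_mul, hφ, ← Real.exp_add]
          congr 2
          ring
      _ ≤ exp (-(w / 512)) + exp (-(w / 512)) := by
          refine add_le_add (Real.exp_le_exp.2 ?_) hφw
          linarith
      _ = _ := by ring
  have T2 : 6 * (Ih * r0) * K0 * φ * (T + 1) ≤ 1 / 20 := by
    calc 6 * (Ih * r0) * K0 * φ * (T + 1) = 6 * (r0 * K0) * (T + 1) * (Ih * φ) := by ring
      _ ≤ 6 * (r0 * K0) * (T + 1) * (2 * exp (-(w / 512))) := by gcongr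
      _ = (240 * r0 * K0 * (T + 1) * exp (-(w / 512))) / 20 := by ring
      _ ≤ 1 / 20 := by linarith
  rcases le_or_gt 0 (exp 2 * mu + T + 1) with hpos | hneg
  · calc Z * (exp 2 * mu + T + 1) ≤ 6 * (Ih * r0) * K0 * φ * (exp 2 * mu + T + 1) :=
          mul_le_mul_of_nonneg_right hZ hpos
      _ = 6 * (Ih * r0) * K0 * φ * (exp 2 * mu) + 6 * (Ih * r0) * K0 * φ * (T + 1) := by ring
      _ ≤ exp (-1) := by linarith
  · exact (mul_nonpos_of_nonneg_of_nonpos hZ0 hneg.le).trans (exp_pos _).le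

/-- the number `t` -/
theorem pp_floor {Z mu T : ℝ} {tt : ℕ} (hZ : 0 < Z) (htt : tt = ⌊exp (-1) / Z⌋₊)
    (hmu : 0 ≤ mu) (hT : 0 ≤ T) (h : Z * (exp 2 * mu + T + 1) ≤ exp (-1)) :
    exp 2 * mu ≤ tt ∧ T ≤ tt ∧ Z * tt ≤ exp (-1) := by
  have h1 : exp 2 * mu + T + 1 ≤ exp (-1) / Z := by
    rw [le_div_iff₀ hZ, mul_comm]
    exact h
  have h2 : exp (-1) / Z < tt + 1 := by
    rw [htt]
    exact Nat.lt_floor_add_one _
  have h3 : (tt : ℝ) ≤ exp (-1) / Z := by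
    rw [htt]
    exact Nat.floor_le (by positivity)
  have h4 : 0 ≤ exp 2 * mu := by positivity
  refine ⟨by linarith, by linarith, ?_⟩
  rw [le_div_iff₀ hZ] at h3
  linarith

/-- the second part of the bound -/
theorem pp_tail {hi mu T W : ℝ} {t0 : ℕ} (ht0 : 28 * W + T ≤ W * (t0 + 1))
    (hhi : hi ≤ exp (28 * W)) (hmu0 : 0 ≤ mu) (hmu : mu ≤ exp (-W)) :
    hi * (mu ^ (t0 + 1) / ((t0 + 1).factorial : ℝ)) ≤ exp (-T) := by
  have h1 : (1 : ℝ) ≤ ((t0 + 1).factorial : ℝ) := by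
    exact_mod_cast Nat.succ_le_of_lt (Nat.factorial_pos _)
  have h2 : mu ^ (t0 + 1) / ((t0 + 1).factorial : ℝ) ≤ mu ^ (t0 + 1) :=
    div_le_self (by positivity) h1
  have h3 : mu ^ (t0 + 1) ≤ exp (-(W * (t0 + 1))) := by
    calc mu ^ (t0 + 1) ≤ exp (-W) ^ (t0 + 1) := pow_le_pow_left₀ hmu0 hmu _
      _ = exp (-(W * (t0 + 1))) := by
          rw [← Real.exp_nat_mul]
          congr 1
          push_cast
          ring
  calc hi * (mu ^ (t0 + 1) / ((t0 + 1).factorial : ℝ)) ≤ exp (28 * W) * exp (-(W * (t0 + 1))) :=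
        mul_le_mul hhi (h2.trans h3) (by positivity) (exp_pos _).le
    _ = exp (28 * W - W * (t0 + 1)) := by rw [← Real.exp_add]; congr 1
    _ ≤ exp (-T) := by
        apply Real.exp_le_exp.2
        linarith

end Pool.Agent.Helper66.T5b
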