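import Pool.Agent.Helper66.T5b.PpLast
import Pool.Agent.Helper57.T5b.Win
import Pool.Agent.Helper63.T5.SLNum

/-!
# T5b, line Nb9: two random windows of the same size
-/

set_option autoImplicit false

namespace Pool.Agent.Helper66.T5b

open Finset Pool.Agent.Helper22.SL Pool.Agent.Helper87.SL Pool.Agent.Helper57.T5
open Pool.Agent.Helper57.T5b (BKb winD_two kb2)
open Pool.Agent.Helper30.T5b (RT RT_pos)
open Pool.Agent.Helper84.T5b
open Pool.Agent.Helper42.T5.Pr (PrLe)

/-- the bottom lemma for one context -/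
theorem bot_inst {m k l l' : ℕ} (hl : l' ≠ l) (hb : bL m k l' = bL m k l) {P : Pr Key}
    (hP : P.Ok (Mk m k)) {q : ℕ} (hMq : P.M = P.M' * q) (hq : 0 < q) {I : ℕ}
    {X Ir : ℕ → ℕ} (hX : Tg P I X Ir) {K : Finset Key} (hK : BKb m k l K) (hK' : BKb m k l' K)
    {v : ℕ} (hv : RT m k (bL m k l) = v) (tt t0 : ℕ) :
    PrLe (Mk m k) K (fun w => (2 * (Ir P.h * t0) + 1) * tt <
      PP P I X (Vw m k l w) (Vw m k l' w))
      ((((I * (4 * (P.F P.h / P.F' P.h)) : ℕ) : ℝ) *
        (((16 * v / q + 1 : ℕ) : ℝ) * ((2 / Real.sqrt v) * (2 / Real.sqrt v)))) ^ tt /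
          (tt.factorial : ℝ) +
        (((16 * v : ℕ) : ℝ) * (((arcL P : ℝ) * (2 / Real.sqrt v)) ^ (t0 + 1) /
          ((t0 + 1).factorial : ℝ)) +
        ((16 * v : ℕ) : ℝ) * ((((arcL P / q + 1 : ℕ) : ℝ) * (2 / Real.sqrt v)) ^ (t0 + 1) /
          ((t0 + 1).factorial : ℝ)))) := by
  have hv1 : 1 ≤ v := by rw [← hv]; exact RT_pos _ _ _
  have hv' : RT m k (bL m k l') = v := by rw [hb]; exact hv
  have key := bot_arc (M := Mk m k) (K := K) (fun q => Mk_pos m k q)
    (winD_two (m := m) (k := k) hl hK hK')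
    (by simp only [cond_false]; rw [hv]; exact hv1) (by simp only [cond_true]; rw [hv']; exact hv1)
    hP hMq hq ({()} : Finset Unit) (fun _ => X) (fun _ _ => hX) tt t0
    (((I * (4 * (P.F P.h / P.F' P.h)) : ℕ) : ℝ) *
        (((16 * v / q + 1 : ℕ) : ℝ) * ((2 / Real.sqrt v) * (2 / Real.sqrt v))))
    ((arcL P : ℝ) * (2 / Real.sqrt v)) (((arcL P / q + 1 : ℕ) : ℝ) * (2 / Real.sqrt v))
    (by simp only [cond_true, cond_false]; rw [hv, hv'])
    (by simp only [cond_true]; rw [hv'])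
    (by simp only [cond_false]; rw [hv])
  refine Pool.Agent.Helper42.T5.Pr.PrLe_mono ?_ (le_of_eq ?_) key
  · intro r _ hr
    exact ⟨(), mem_singleton_self _, hr⟩
  · rw [card_singleton, Nat.cast_one, one_mul]
    simp only [cond_true, cond_false]
    rw [hv, hv']

/-- **one context** -/
theorem same_one {m k l l' : ℕ} (hl : l' ≠ l) (hb : bL m k l' = bL m k l) {P : Pr Key}
    {d W1 W0 s s' K0 : ℝ} {I : ℕ} {X Ir : ℕ → ℕ}
    (h : LastW (Mk m k) P d (W1 * Pool.Agent.Helper63.T5.lam) W0 s s' K0 I X Ir) {q : ℕ}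
    (hMq : P.M = P.M' * q) {K : Finset Key} (hK : BKb m k l K) (hK' : BKb m k l' K)
    (hW1 : 10 ^ 7 ≤ W1) (hRT : (RT m k (bL m k l) : ℝ) ≤ Real.exp (W1 * Pool.Agent.Helper63.T5.lam))
    (hRT' : Real.exp (0.999 * (W1 * Pool.Agent.Helper63.T5.lam)) ≤ (RT m k (bL m k l) : ℝ))
    {t0 : ℕ} {T : ℝ} (hT : 0 ≤ T) (ht1 : 1 ≤ t0) (ht0 : 28 * W1 + T ≤ W1 * (t0 + 1))
    (h1 : 1350 * (t0 : ℝ) * K0 * 300 *
      Real.exp (-(0.00535 * (W1 * Pool.Agent.Helper63.T5.lam))) ≤ 1)
    (h2 : 1350 * (t0 : ℝ) * K0 * 300 * Real.exp (-(d / 2)) ≤ 1)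
    (h3 : 240 * (t0 : ℝ) * K0 * (T + 1) *
      Real.exp (-(W1 * Pool.Agent.Helper63.T5.lam / 512)) ≤ 1) :
    PrLe (Mk m k) K (fun w => Real.exp (-1) <
      (PP P I X (Vw m k l w) (Vw m k l' w) : ℝ) * P.A P.h * P.pc P.h) (3 * Real.exp (-T)) := by
  classical
  obtain ⟨v, hv⟩ : ∃ v, RT m k (bL m k l) = v := ⟨_, rfl⟩
  rw [hv] at hRT hRT'
  have hlam := Pool.Agent.Helper63.T5.lam_gt
  have hlam2 := Pool.Agent.Helper63.T5.lam_lt
  set w1 : ℝ := W1 * Pool.Agent.Helper63.T5.lam with hw1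
  have hW13 : 13 * W1 ≤ w1 := by
    rw [hw1, mul_comm]
    exact mul_le_mul_of_nonneg_left (by linarith only [hlam]) (by linarith only [hW1])
  have hw14 : w1 ≤ 14 * W1 := by
    rw [hw1, mul_comm 14 W1]
    exact mul_le_mul_of_nonneg_left (by linarith only [hlam2]) (by linarith only [hW1])
  have hw0 : 0 ≤ w1 := by linarith
  have hN := h.num
  have hd0 := hN.D0
  have hdw := h.dw
  have hqd := h.q_eq hMq
  have hq0 : 0 < q := by
    have : (0 : ℝ) < q := by rw [hqd]; exact Real.exp_pos _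
    exact_mod_cast this
  have hv1 : (0 : ℝ) < v := (Real.exp_pos _).trans_le hRT'
  have hsv : Real.exp (0.4995 * w1) ≤ Real.sqrt v := by
    rw [show 0.4995 * w1 = 0.999 * w1 * (1 / 2) by ring, Real.exp_mul, ← Real.sqrt_eq_rpow]
    exact Real.sqrt_le_sqrt hRT'
  have hsv0 : 0 < Real.sqrt v := (Real.exp_pos _).trans_le hsv
  have hsvv : Real.sqrt v * Real.sqrt v = v := Real.mul_self_sqrt hv1.le
  have h2v0 : 0 ≤ 2 / Real.sqrt v := div_nonneg (by norm_num) hsv0.le
  have h2v : 2 / Real.sqrt v ≤ 2 * Real.exp (-(0.4995 * w1)) := by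
    rw [Real.exp_neg, div_eq_mul_inv]
    exact mul_le_mul_of_nonneg_left (inv_anti₀ (Real.exp_pos _) hsv) (by norm_num)
  -- the mean
  set mu : ℝ := ((I * (4 * (P.F P.h / P.F' P.h)) : ℕ) : ℝ) *
        (((16 * v / q + 1 : ℕ) : ℝ) * ((2 / Real.sqrt v) * (2 / Real.sqrt v))) with hmudef
  have hmu0 : 0 ≤ mu := by positivity
  have hmu : Real.exp (s' - s - d) * mu ≤ 300 * Real.exp (-(d / 2)) := by
    have e1 : ((16 * v / q + 1 : ℕ) : ℝ) * ((2 / Real.sqrt v) * (2 / Real.sqrt v)) ≤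
        68 * Real.exp (-d) := by
      have e2 : ((16 * v / q + 1 : ℕ) : ℝ) ≤ 16 * v / Real.exp d + 1 := by
        push_cast
        have e3 : ((16 * v / q : ℕ) : ℝ) ≤ ((16 * v : ℕ) : ℝ) / (q : ℝ) := Nat.cast_div_le
        rw [hqd] at e3
        push_cast at e3
        linarith
      have e5 : (2 / Real.sqrt v) * (2 / Real.sqrt v) = 4 / (v : ℝ) := by
        rw [div_mul_div_comm, hsvv]
        norm_num
      rw [e5]
      have e6 : (1 : ℝ) ≤ v * Real.exp (-d) := by
        have e7 : Real.exp d ≤ v := (Real.exp_le_exp.2 (by linarith)).trans hRT'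
        have e8 : Real.exp d * Real.exp (-d) = 1 := by rw [← Real.exp_add]; simp
        rw [← e8]
        exact mul_le_mul_of_nonneg_right e7 (Real.exp_pos _).le
      calc ((16 * v / q + 1 : ℕ) : ℝ) * (4 / (v : ℝ))
          ≤ (16 * v / Real.exp d + 1) * (4 / (v : ℝ)) :=
            mul_le_mul_of_nonneg_right e2 (by positivity)
        _ ≤ (16 * v * Real.exp (-d) + v * Real.exp (-d)) * (4 / (v : ℝ)) := by
            refine mul_le_mul_of_nonneg_right ?_ (by positivity)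
            rw [Real.exp_neg, div_eq_mul_inv]
            rw [Real.exp_neg] at e6
            linarith
        _ = 68 * Real.exp (-d) := by
            field_simp
            ring
    have e9 : ((I * (4 * (P.F P.h / P.F' P.h)) : ℕ) : ℝ) =
        4 * ((I : ℝ) * (Real.exp (s' - s - d))⁻¹) := by
      rw [Nat.cast_mul, Nat.cast_mul, h.FF'_div]
      push_cast
      ring
    have hφ : 0 < Real.exp (s' - s - d) := Real.exp_pos _
    calc Real.exp (s' - s - d) * mu
        ≤ Real.exp (s' - s - d) * (4 * ((I : ℝ) * (Real.exp (s' - s - d))⁻¹) *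
          (68 * Real.exp (-d))) := by
          rw [hmudef, e9]
          gcongr
      _ = 272 * ((I : ℝ) * Real.exp (-d)) := by field_simp; ring
      _ ≤ 272 * (Real.exp (d / 2) * Real.exp (-d)) := by
          have := h.IJ
          gcongr
      _ = 272 * Real.exp (-(d / 2)) := by rw [← Real.exp_add]; congr 2; ring
      _ ≤ _ := by
          have := Real.exp_pos (-(d / 2))
          linarith
  -- the number `t`
  have hI1 := h.I1
  have ht1' : (1 : ℝ) ≤ t0 := by exact_mod_cast ht1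
  have hIt : 1 ≤ Ir P.h * t0 := Nat.mul_pos hI1 ht1
  obtain ⟨tt, f1, f2, f3⟩ := h.pick (c1 := 2 * (Ir P.h * t0) + 1) (r0 := (t0 : ℝ)) (C0 := 300)
    (T := T) (mu := mu) (by omega) (by
      have : (1 : ℝ) ≤ (Ir P.h : ℝ) * t0 := by exact_mod_cast hIt
      push_cast
      linarith) ht1' (by norm_num) hT hmu0 hmu h1 h2 h3
  have key := bot_inst hl hb h.ok hMq hq0 h.tg hK hK' hv tt t0
  have hsu := hN.su
  have harc : (arcL P : ℝ) = 7 * Real.exp (d + s) := by
    unfold arcL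
    rw [Nat.cast_mul, h.F_div]
    norm_num
  have hexpW : (16 : ℝ) ≤ Real.exp (0.7 * W1) := by
    have e1 := Real.add_one_le_exp (0.7 * W1)
    linarith
  have hmu1 : (arcL P : ℝ) * (2 / Real.sqrt v) ≤ Real.exp (-W1) := by
    rw [harc]
    calc 7 * Real.exp (d + s) * (2 / Real.sqrt v)
        ≤ 7 * Real.exp (d + s) * (2 * Real.exp (-(0.4995 * w1))) :=
          mul_le_mul_of_nonneg_left h2v (by positivity)
      _ = 14 * Real.exp (d + s + -(0.4995 * w1)) := by rw [Real.exp_add (d + s)]; ring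
      _ ≤ Real.exp (0.7 * W1) * Real.exp (-(1.7 * W1)) := by
          refine mul_le_mul (by linarith) (Real.exp_le_exp.2 (by linarith)) (Real.exp_pos _).le
            (Real.exp_pos _).le
      _ = Real.exp (-W1) := by rw [← Real.exp_add]; congr 1; ring
  have hmu2 : ((arcL P / q + 1 : ℕ) : ℝ) * (2 / Real.sqrt v) ≤ Real.exp (-W1) := by
    have e1 : ((arcL P / q + 1 : ℕ) : ℝ) ≤ 8 * Real.exp s := by
      push_cast
      have e2 : ((arcL P / q : ℕ) : ℝ) ≤ (arcL P : ℝ) / (q : ℝ) := Nat.cast_div_le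
      rw [harc, hqd, mul_div_assoc, ← Real.exp_sub, add_sub_cancel_left] at e2
      have e3 : (1 : ℝ) ≤ Real.exp s := Real.one_le_exp (by
        have := hN.sl
        linarith)
      linarith
    calc ((arcL P / q + 1 : ℕ) : ℝ) * (2 / Real.sqrt v)
        ≤ 8 * Real.exp s * (2 * Real.exp (-(0.4995 * w1))) :=
          mul_le_mul e1 h2v h2v0 (by positivity)
      _ = 16 * Real.exp (s + -(0.4995 * w1)) := by rw [Real.exp_add s]; ring
      _ ≤ Real.exp (0.7 * W1) * Real.exp (-(1.7 * W1)) := by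
          refine mul_le_mul hexpW (Real.exp_le_exp.2 (by linarith)) (Real.exp_pos _).le
            (Real.exp_pos _).le
      _ = Real.exp (-W1) := by rw [← Real.exp_add]; congr 1; ring
  have hhi : ((16 * v : ℕ) : ℝ) ≤ Real.exp (28 * W1) := by
    have e1 : (16 : ℝ) ≤ Real.exp (14 * W1) := by
      have := Real.add_one_le_exp (14 * W1)
      linarith
    push_cast
    calc 16 * (v : ℝ) ≤ Real.exp (14 * W1) * Real.exp (14 * W1) := by
          refine mul_le_mul e1 (hRT.trans (Real.exp_le_exp.2 hw14)) hv1.le (Real.exp_pos _).le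
      _ = _ := by rw [← Real.exp_add]; congr 1; ring
  refine Pool.Agent.Helper42.T5.Pr.PrLe_mono ?_ ?_ key
  · intro r _ hr
    by_contra hcon
    rw [not_lt] at hcon
    exact absurd hr (not_lt.2 (f3 _ hcon))
  · have t1 := Pool.Agent.Helper66.T5.tail_exp hmu0 f1
    have t2 := pp_tail (hi := ((16 * v : ℕ) : ℝ)) (mu := (arcL P : ℝ) * (2 / Real.sqrt v))
      (T := T) (W := W1) (t0 := t0) ht0 hhi (by positivity) hmu1
    have t3 := pp_tail (hi := ((16 * v : ℕ) : ℝ))
      (mu := ((arcL P / q + 1 : ℕ) : ℝ) * (2 / Real.sqrt v))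
      (T := T) (W := W1) (t0 := t0) ht0 hhi (by positivity) hmu2
    have t4 : Real.exp (-(tt : ℝ)) ≤ Real.exp (-T) := Real.exp_le_exp.2 (by linarith)
    linarith

end Pool.Agent.Helper66.T5b
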